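import Pool.Agent.Lib.MP_0dcd56_mp.Dual

set_option autoImplicit false

namespace Pool.Agent.Lib.MP_0dcd56_mp

section
variable {k R : Type*} [Field k] [CommRing R] [Algebra k R]

lemma der_ofNat (D : Derivation k R R) (n : ℕ) [n.AtLeastTwo] :
    D (ofNat(n) : R) = 0 := D.map_natCast n

lemma der_intCast (D : Derivation k R R) (n : ℤ) : D (n : R) = 0 := by
  simp

variable (Dx Dy Th : Derivation k R R)

/-- `q φ_y = {B₃, φ}` in degree `d`. -/
def Star (W q : R) (d : ℤ) (φ : R) : Prop :=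
  q * Dy φ = (3 + 3 * Dx W * q) * Dx φ - 3 * Dx (Dx W) * q * (d * φ - 2 * Th φ)

/-- `{9 B₅, φ}` in degree `d`. -/
def CC (W q : R) (d : ℤ) (φ : R) : R :=
  (45 + 135 * Dx W * q + (15 * Dy W + 45 * Dx W ^ 2) * q ^ 2) * Dx φ
    - (45 * Dx (Dx W) * q + (15 * Dx (Dy W) + 90 * Dx W * Dx (Dx W)) * q ^ 2)
      * (d * φ - 2 * Th φ)

variable {Dx Dy Th}

lemma Star.mul {W q : R} {d e : ℤ} {φ ψ : R} (h1 : Star Dx Dy Th W q d φ)
    (h2 : Star Dx Dy Th W q e ψ) : Star Dx Dy Th W q (d + e) (φ * ψ) := by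
  unfold Star at *
  simp only [Derivation.leibniz, smul_eq_mul, Int.cast_add]
  linear_combination ψ * h1 + φ * h2

lemma Star.one {W q : R} : Star Dx Dy Th W q 0 1 := by
  unfold Star
  simp

lemma Star.pow {W q : R} {d : ℤ} {φ : R} (h : Star Dx Dy Th W q d φ) (n : ℕ) :
    Star Dx Dy Th W q (n * d) (φ ^ n) := by
  induction n with
  | zero => simpa using Star.one
  | succ n ih =>
    have := ih.mul h
    rw [pow_succ]
    have e : ((n + 1 : ℕ) : ℤ) * d = n * d + d := by push_cast; ring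
    rw [e]
    exact this

lemma Star.inv {W q : R} {d : ℤ} {φ κ : R} (h : Star Dx Dy Th W q d φ) (hk : κ * φ = 1) :
    Star Dx Dy Th W q (-d) κ := by
  unfold Star at *
  have hx := congrArg Dx hk
  have hy := congrArg Dy hk
  have ht := congrArg Th hk
  simp only [Derivation.leibniz, smul_eq_mul, Derivation.map_one_eq_zero] at hx hy ht
  push_cast
  have hk2 : κ * φ - 1 = 0 := by rw [hk, sub_self]
  -- multiply by `κ φ = 1`
  have key : (q * Dy κ - ((3 + 3 * Dx W * q) * Dx κ - 3 * Dx (Dx W) * q * (-d * κ - 2 * Th κ)))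
      * (κ * φ) = 0 := by
    linear_combination (-κ ^ 2) * h + q * κ * hy - κ * (3 + 3 * Dx W * q) * hx
      - 6 * Dx (Dx W) * q * κ * ht
  rw [hk, mul_one, sub_eq_zero] at key
  exact key

lemma CC_mul (W q : R) (d e : ℤ) (φ ψ : R) :
    CC Dx Dy Th W q (d + e) (φ * ψ) = φ * CC Dx Dy Th W q e ψ + ψ * CC Dx Dy Th W q d φ := by
  unfold CC
  simp only [Derivation.leibniz, smul_eq_mul, Int.cast_add]
  ring

lemma core_identity (hxy : ∀ f, Dx (Dy f) = Dy (Dx f)) (hxt : ∀ f, Dx (Th f) = Th (Dx f))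
    (hyt : ∀ f, Dy (Th f) = Th (Dy f)) {W q : R} (hxq : Dx q = 0) (hyq : Dy q = 0)
    (htq : Th q = q) (htW : Th W = 0) {d : ℤ} {φ : R} (h : Star Dx Dy Th W q d φ) {Vx : R}
    (hV : Vx = 15 * Dx (Dx W) * Dy W + 15 * Dx W * Dy (Dx W) - 45 * Dx W ^ 2 * Dx (Dx W)
      + 5 * Dy (Dy W)) :
    q * Dy (CC Dx Dy Th W q d φ)
      = (3 + 3 * Dx W * q) * Dx (CC Dx Dy Th W q d φ)
        - 3 * Dx (Dx W) * q * ((d + 4 : ℤ) * CC Dx Dy Th W q d φ - 2 * Th (CC Dx Dy Th W q d φ))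
        + q ^ 3 * (3 * Vx * Dx φ - 3 * Dx Vx * (d * φ - 2 * Th φ)) := by
  have hS := h
  unfold Star at hS
  have hxS := congrArg Dx hS
  have htS := congrArg Th hS
  have t1 : Th (Dx W) = 0 := by rw [← hxt, htW, map_zero]
  have t2 : Th (Dy W) = 0 := by rw [← hyt, htW, map_zero]
  have t3 : Th (Dx (Dx W)) = 0 := by rw [← hxt, t1, map_zero]
  have t4 : Th (Dy (Dx W)) = 0 := by rw [← hyt, t1, map_zero]
  rw [hV]
  unfold CC
  simp only [Derivation.leibniz, Derivation.leibniz_pow, smul_eq_mul, map_add, map_sub, der_ofNat,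
    der_intCast, hxq, hyq, htq, t1, t2, t3, t4, hxy, hxt, hyt, mul_zero, add_zero,
    zero_add, nsmul_eq_mul, Nat.cast_ofNat, pow_one, Nat.add_one_sub_one] at hxS htS ⊢
  push_cast
  linear_combination (45 + 135 * Dx W * q + (15 * Dy W + 45 * Dx W ^ 2) * q ^ 2) * hxS
    - (45 * Dx (Dx W) * q + (15 * Dy (Dx W) + 90 * Dx W * Dx (Dx W)) * q ^ 2)
      * ((d + 2) * hS - 2 * htS)

end

end Pool.Agent.Lib.MP_0dcd56_mp
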