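import Mathlib

/-!
The formal calculus of (nonlocal) differential expressions in `w` and the independent variables
`x`, `y`, and the commutator operator `V_[,]` of the dispersionless potential BKP equation.
-/

set_option autoImplicit false

namespace Pool.Agent.Lib.MP_0dcd56_mp

/-- (Nonlocal) differential expressions: everything built from the dependent variable `w`, the
independent variables `x`, `y` and rational constants with sums, products, `∂_x`, `∂_y` and the
formal inverse `∂_x⁻¹` (`invDx`). -/
inductive Expr : Type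
  | w : Expr
  | x : Expr
  | y : Expr
  | const : ℚ → Expr
  | add : Expr → Expr → Expr
  | mul : Expr → Expr → Expr
  | dx : Expr → Expr
  | dy : Expr → Expr
  | invDx : Expr → Expr

namespace Expr

/-- The Gateaux (Frechet) derivative `f'[g]` of the expression `f` in `w`, in the direction of the
expression `g`: the coefficient of `ε` in `f(w + ε g)`. -/
def gateaux : Expr → Expr → Expr
  | w, g => g
  | x, _ => const 0
  | y, _ => const 0
  | const _, _ => const 0
  | add e f, g => add (gateaux e g) (gateaux f g)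
  | mul e f, g => add (mul (gateaux e g) f) (mul e (gateaux f g))
  | dx e, g => dx (gateaux e g)
  | dy e, g => dy (gateaux e g)
  | invDx e, g => invDx (gateaux e g)

/-- The expression `V = 15 w_x w_y - 15 w_x³ + 5 ∂_x⁻¹ w_yy`. -/
def V : Expr :=
  add (add (mul (const 15) (mul (dx w) (dy w)))
    (mul (const (-15)) (mul (dx w) (mul (dx w) (dx w)))))
    (mul (const 5) (invDx (dy (dy w))))

/-- The commutator operator `V_[,] f = V'[f] - f'[V]`. -/
def bracket (f : Expr) : Expr := add (gateaux V f) (mul (const (-1)) (gateaux f V))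

/-- The expression `y ^ n`. -/
def ypow : ℕ → Expr
  | 0 => const 1
  | n + 1 => mul (ypow n) y

end Expr

/-- Two derivations `∂_x`, `∂_y`, a linear operator `∂_x⁻¹` and two elements `x`, `y` of a
`k`-algebra `F`. -/
structure Ops (k F : Type*) [Field k] [CommRing F] [Algebra k F] where
  dx : Derivation k F F
  dy : Derivation k F F
  invDx : F →ₗ[k] F
  x : F
  y : F

/-- The value of an expression for `w = u`. -/
def Expr.eval {k F : Type*} [Field k] [CommRing F] [Algebra k F] (O : Ops k F) (u : F) :
    Expr → F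
  | .w => u
  | .x => O.x
  | .y => O.y
  | .const c => algebraMap k F (c : k)
  | .add e f => e.eval O u + f.eval O u
  | .mul e f => e.eval O u * f.eval O u
  | .dx e => O.dx (e.eval O u)
  | .dy e => O.dy (e.eval O u)
  | .invDx e => O.invDx (e.eval O u)

/-- The formal calculus.  `F` is the algebra of all expressions (modulo the rules of the calculus),
`D` the ideal of those that depend on `w`: every element of `F` is a polynomial in `x`, `y` plus an
element of `D`.  On `D` the operator `∂_x⁻¹` is a two-sided inverse of `∂_x`; on polynomials it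
integrates from `x = 0`, i.e. `∂_x⁻¹ (x^i y^j) = x^(i+1) y^j / (i+1)` (so `∂_x⁻¹ 1 = x`).

Examples: the expressions themselves modulo the rules of the calculus; power series in `e^x` with
coefficients in `ℚ[x, y]` (constructed in `Pool.Agent.Lib.MP_0dcd56_mp.Model`, where `D` consists of
the series without constant term); polynomials plus smooth functions all of whose derivatives decay
rapidly as `x → -∞`, with `∂_x⁻¹` the integral from `-∞`. -/
structure Calculus (k F : Type*) [Field k] [CommRing F] [Algebra k F] extends Ops k F where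
  comm : ∀ f, dx (dy f) = dy (dx f)
  dx_x : dx x = 1
  dx_y : dx y = 0
  dy_x : dy x = 0
  dy_y : dy y = 1
  D : Ideal F
  dx_mem : ∀ f ∈ D, dx f ∈ D
  dy_mem : ∀ f ∈ D, dy f ∈ D
  invDx_mem : ∀ f ∈ D, invDx f ∈ D
  dx_invDx : ∀ f ∈ D, dx (invDx f) = f
  invDx_dx : ∀ f ∈ D, invDx (dx f) = f
  invDx_monomial : ∀ i j : ℕ, ((i : k) + 1) • invDx (x ^ i * y ^ j) = x ^ (i + 1) * y ^ j
  poly_add_mem : ∀ f, ∃ P : MvPolynomial (Fin 2) k, f - MvPolynomial.aeval ![x, y] P ∈ D

/-- Applying a linear operator to the coefficients of a polynomial. -/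
lemma lin_poly {k F : Type*} [Field k] [CommRing F] [Algebra k F] (L : F →ₗ[k] F)
    (P : Polynomial F) : ∃ Q : Polynomial F, (∀ n, Q.coeff n = L (P.coeff n)) ∧
      ∀ c : k, Q.eval (algebraMap k F c) = L (P.eval (algebraMap k F c)) := by
  refine ⟨∑ i ∈ Finset.range (P.natDegree + 1), Polynomial.monomial i (L (P.coeff i)), ?_, ?_⟩
  · intro n
    rw [Polynomial.finsetSum_coeff]
    simp only [Polynomial.coeff_monomial]
    rw [Finset.sum_ite_eq']
    split_ifs with h
    · rfl
    · rw [Finset.mem_range, not_lt] at h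
      rw [Polynomial.coeff_eq_zero_of_natDegree_lt (by omega), map_zero]
  · intro c
    rw [Polynomial.eval_finsetSum, Polynomial.eval_eq_sum_range, map_sum]
    apply Finset.sum_congr rfl
    intro i _
    rw [Polynomial.eval_monomial, ← map_pow, mul_comm, ← Algebra.smul_def, ← map_smul,
      mul_comm (P.coeff i), ← Algebra.smul_def]

/-- `gateaux` is the Gateaux derivative: the value of `e` at `w = u + c g(u)` is a polynomial in
the scalar `c` whose coefficient of `c` is the value of `e.gateaux g`. -/
theorem Expr.eval_gateaux {k F : Type*} [Field k] [CommRing F] [Algebra k F] (O : Ops k F)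
    (u : F) (g e : Expr) : ∃ P : Polynomial F, P.coeff 0 = e.eval O u ∧
      P.coeff 1 = (e.gateaux g).eval O u ∧
      ∀ c : k, e.eval O (u + c • g.eval O u) = P.eval (algebraMap k F c) := by
  induction e with
  | w =>
    refine ⟨Polynomial.C u + Polynomial.X * Polynomial.C (g.eval O u), ?_, ?_, ?_⟩
    · simp [Expr.eval]
    · simp [Expr.gateaux]
    · intro c
      simp [Expr.eval, Algebra.smul_def]
      ring
  | x =>
    refine ⟨Polynomial.C O.x, ?_, ?_, ?_⟩ <;> simp [Expr.eval, Expr.gateaux, Polynomial.coeff_C]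
  | y =>
    refine ⟨Polynomial.C O.y, ?_, ?_, ?_⟩ <;> simp [Expr.eval, Expr.gateaux, Polynomial.coeff_C]
  | const q =>
    refine ⟨Polynomial.C (algebraMap k F (q : k)), ?_, ?_, ?_⟩ <;>
      simp [Expr.eval, Expr.gateaux, Polynomial.coeff_C]
  | add e f he hf =>
    obtain ⟨P, h0, h1, h2⟩ := he
    obtain ⟨Q, k0, k1, k2⟩ := hf
    refine ⟨P + Q, ?_, ?_, ?_⟩
    · simp [Expr.eval, h0, k0]
    · simp [Expr.eval, Expr.gateaux, h1, k1]
    · intro c; simp [Expr.eval, h2, k2]
  | mul e f he hf =>
    obtain ⟨P, h0, h1, h2⟩ := he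
    obtain ⟨Q, k0, k1, k2⟩ := hf
    refine ⟨P * Q, ?_, ?_, ?_⟩
    · simp [Expr.eval, h0, k0, Polynomial.mul_coeff_zero]
    · rw [Polynomial.mul_coeff_one, h0, h1, k0, k1]
      simp only [Expr.eval, Expr.gateaux]
      ring
    · intro c; simp [Expr.eval, h2, k2]
  | dx e he =>
    obtain ⟨P, h0, h1, h2⟩ := he
    obtain ⟨Q, hQ, hQ'⟩ := lin_poly O.dx.toLinearMap P
    refine ⟨Q, ?_, ?_, ?_⟩
    · rw [hQ, h0]; rfl
    · rw [hQ, h1]; rfl
    · intro c; rw [hQ', ← h2]; rfl
  | dy e he =>
    obtain ⟨P, h0, h1, h2⟩ := he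
    obtain ⟨Q, hQ, hQ'⟩ := lin_poly O.dy.toLinearMap P
    refine ⟨Q, ?_, ?_, ?_⟩
    · rw [hQ, h0]; rfl
    · rw [hQ, h1]; rfl
    · intro c; rw [hQ', ← h2]; rfl
  | invDx e he =>
    obtain ⟨P, h0, h1, h2⟩ := he
    obtain ⟨Q, hQ, hQ'⟩ := lin_poly O.invDx P
    refine ⟨Q, ?_, ?_, ?_⟩
    · rw [hQ, h0]; rfl
    · rw [hQ, h1]; rfl
    · intro c; rw [hQ', ← h2]; rfl

end Pool.Agent.Lib.MP_0dcd56_mp
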