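import Pool.Agent.Lib.MP_0dcd56_mp.Inner

set_option autoImplicit false

open TrivSqZeroExt

namespace Pool.Agent.Lib.MP_0dcd56_mp

variable {k A : Type*} [Field k] [CommRing A] [Algebra k A]

/-- `a + ε b`. -/
def du (a b : A) : DualNumber A := inl a + inr b

@[simp] lemma fst_du (a b : A) : (du a b).fst = a := by simp [du]
@[simp] lemma snd_du (a b : A) : (du a b).snd = b := by simp [du]

lemma du_ext {z : DualNumber A} {a b : A} (h1 : z.fst = a) (h2 : z.snd = b) : z = du a b := by
  apply TrivSqZeroExt.ext <;> simp [h1, h2]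

lemma du_eta (z : DualNumber A) : du z.fst z.snd = z := (du_ext rfl rfl).symm

lemma snd_mul' (z w : DualNumber A) : (z * w).snd = z.fst * w.snd + w.fst * z.snd := by
  rw [TrivSqZeroExt.snd_mul]
  simp [mul_comm]

/-- componentwise extension of a linear map -/
def dualLin (L : A →ₗ[k] A) : DualNumber A →ₗ[k] DualNumber A where
  toFun z := du (L z.fst) (L z.snd)
  map_add' z w := by apply TrivSqZeroExt.ext <;> simp
  map_smul' c z := by apply TrivSqZeroExt.ext <;> simp

@[simp] lemma fst_dualLin (L : A →ₗ[k] A) (z : DualNumber A) : (dualLin L z).fst = L z.fst := by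
  simp [dualLin]
@[simp] lemma snd_dualLin (L : A →ₗ[k] A) (z : DualNumber A) : (dualLin L z).snd = L z.snd := by
  simp [dualLin]

/-- componentwise extension of a derivation -/
def dualDer (D : Derivation k A A) : Derivation k (DualNumber A) (DualNumber A) :=
  Derivation.mk' (dualLin D.toLinearMap) (by
    intro z w
    apply TrivSqZeroExt.ext
    · simp
    · simp only [snd_dualLin, snd_mul', snd_add, smul_eq_mul, fst_dualLin]
      simp only [Derivation.coeFn_coe, map_add,
        Derivation.leibniz, smul_eq_mul]
      ring)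

@[simp] lemma fst_dualDer (D : Derivation k A A) (z : DualNumber A) :
    (dualDer D z).fst = D z.fst := by
  simp [dualDer]
@[simp] lemma snd_dualDer (D : Derivation k A A) (z : DualNumber A) :
    (dualDer D z).snd = D z.snd := by
  simp [dualDer]

/-- operations on dual numbers -/
def Ops.dual (O : Ops k A) : Ops k (DualNumber A) where
  dx := dualDer O.dx
  dy := dualDer O.dy
  invDx := dualLin O.invDx
  x := inl O.x
  y := inl O.y

/-- calculus on dual numbers -/
def ICalc.dual (K : ICalc k A) : ICalc k (DualNumber A) where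
  toOps := K.toOps.dual
  comm z := by
    apply TrivSqZeroExt.ext
    · simp [Ops.dual, K.comm]
    · simp [Ops.dual, K.comm]
  dx_x := by
    apply TrivSqZeroExt.ext
    · simp [Ops.dual, K.dx_x]
    · simp [Ops.dual]
  dx_y := by
    apply TrivSqZeroExt.ext
    · simp [Ops.dual, K.dx_y]
    · simp [Ops.dual]
  dy_x := by
    apply TrivSqZeroExt.ext
    · simp [Ops.dual, K.dy_x]
    · simp [Ops.dual]
  dy_y := by
    apply TrivSqZeroExt.ext
    · simp [Ops.dual, K.dy_y]
    · simp [Ops.dual]
  dx_J z := by
    apply TrivSqZeroExt.ext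
    · simp [Ops.dual, K.dx_J]
    · simp [Ops.dual, K.dx_J]
  dy_J z := by
    apply TrivSqZeroExt.ext
    · simp [Ops.dual, K.dy_J]
    · simp [Ops.dual, K.dy_J]
  E_mul z w := by
    apply TrivSqZeroExt.ext
    · have := K.E_mul z.fst w.fst
      simp only [Ops.dual, fst_sub, fst_mul, fst_dualLin, fst_dualDer]
      exact this
    · have h1 := K.E_mul z.fst w.snd
      have h2 := K.E_mul w.fst z.snd
      simp only [Ops.dual, snd_sub, snd_mul', snd_dualLin, snd_dualDer, fst_sub, fst_dualLin,
        fst_dualDer, map_add]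
      linear_combination h1 + h2
  J_one := by
    apply TrivSqZeroExt.ext
    · simp [Ops.dual, K.J_one]
    · simp [Ops.dual]

lemma fst_E (O : Ops k A) (z : DualNumber A) : (O.dual.E z).fst = O.E z.fst := by
  simp [Ops.E, Ops.dual]

lemma snd_E (O : Ops k A) (z : DualNumber A) : (O.dual.E z).snd = O.E z.snd := by
  simp [Ops.E, Ops.dual]

lemma fst_iter (O : Ops k A) (z : DualNumber A) (i : ℕ) :
    (O.dual.dx^[i] z).fst = O.dx^[i] z.fst := by
  induction i with
  | zero => rfl
  | succ i ih =>
    rw [Function.iterate_succ_apply', Function.iterate_succ_apply', ← ih]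
    simp [Ops.dual]

lemma snd_iter (O : Ops k A) (z : DualNumber A) (i : ℕ) :
    (O.dual.dx^[i] z).snd = O.dx^[i] z.snd := by
  induction i with
  | zero => rfl
  | succ i ih =>
    rw [Function.iterate_succ_apply', Function.iterate_succ_apply', ← ih]
    simp [Ops.dual]

lemma ICalc.inD_dual (K : ICalc k A) {z : DualNumber A} :
    K.dual.inD z ↔ K.inD z.fst ∧ K.inD z.snd := by
  constructor
  · intro h
    constructor
    · intro i
      have := congrArg TrivSqZeroExt.fst (h i)
      change (K.toOps.dual.E (K.toOps.dual.dx^[i] z)).fst = _ at this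
      rw [fst_E, fst_iter] at this
      exact this
    · intro i
      have := congrArg TrivSqZeroExt.snd (h i)
      change (K.toOps.dual.E (K.toOps.dual.dx^[i] z)).snd = _ at this
      rw [snd_E, snd_iter] at this
      exact this
  · rintro ⟨h1, h2⟩ i
    change K.toOps.dual.E (K.toOps.dual.dx^[i] z) = 0
    apply TrivSqZeroExt.ext
    · rw [fst_E, fst_iter]; exact h1 i
    · rw [snd_E, snd_iter]; exact h2 i

/-- The syntactic Gateaux derivative is the derivative. -/
lemma eval_dual (O : Ops k A) (u : A) (g e : Expr) :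
    e.eval O.dual (du u (g.eval O u)) = du (e.eval O u) ((e.gateaux g).eval O u) := by
  induction e with
  | w => rfl
  | x =>
    apply du_ext <;> simp [Expr.eval, Expr.gateaux, Ops.dual]
  | y =>
    apply du_ext <;> simp [Expr.eval, Expr.gateaux, Ops.dual]
  | const c =>
    have h : algebraMap k (DualNumber A) (c : k) = inl (algebraMap k A (c : k)) := rfl
    apply du_ext
    · simp [Expr.eval, h]
    · simp [Expr.eval, Expr.gateaux, h]
  | add e f he hf =>
    rw [Expr.eval, he, hf]
    apply du_ext <;> simp [Expr.eval, Expr.gateaux]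
  | mul e f he hf =>
    rw [Expr.eval, he, hf]
    apply du_ext
    · simp [Expr.eval]
    · simp only [snd_mul', fst_du, snd_du, Expr.eval, Expr.gateaux]
      ring
  | dx e he =>
    rw [Expr.eval, he]
    apply du_ext <;> simp [Expr.eval, Expr.gateaux, Ops.dual]
  | dy e he =>
    rw [Expr.eval, he]
    apply du_ext <;> simp [Expr.eval, Expr.gateaux, Ops.dual]
  | invDx e he =>
    rw [Expr.eval, he]
    apply du_ext <;> simp [Expr.eval, Expr.gateaux, Ops.dual]

end Pool.Agent.Lib.MP_0dcd56_mp
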