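import Pool.Agent.Lib.MP_0dcd56_mp.Main

set_option autoImplicit false

namespace Pool.Agent.Lib.MP_0dcd56_mp

variable {k F : Type*} [Field k] [CharZero k] [CommRing F] [Algebra k F] (K : Calculus k F)

namespace Calculus

omit [CharZero k] in
lemma ind {p : F → Prop} (hadd : ∀ f g, p f → p g → p (f + g))
    (hmon : ∀ (c : k) (i j : ℕ), p (c • (K.x ^ i * K.y ^ j))) (hD : ∀ f ∈ K.D, p f) (f : F) :
    p f := by
  obtain ⟨P, hP⟩ := K.poly_add_mem f
  have e : f = MvPolynomial.aeval ![K.x, K.y] P + (f - MvPolynomial.aeval ![K.x, K.y] P) := by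
    ring
  rw [e]
  refine hadd _ _ ?_ (hD _ hP)
  rw [MvPolynomial.aeval_def, MvPolynomial.eval₂_eq']
  have h0 : p 0 := by
    have := hmon 0 0 0
    rwa [zero_smul] at this
  classical
  induction P.support using Finset.induction_on with
  | empty => simpa using h0
  | insert a s ha ih =>
    rw [Finset.sum_insert ha]
    refine hadd _ _ ?_ ih
    rw [Fin.prod_univ_two, ← Algebra.smul_def]
    exact hmon _ _ _

lemma smul_inj {i : ℕ} {a b : F} (h : ((i : k) + 1) • a = ((i : k) + 1) • b) : a = b := by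
  have hi : ((i : k) + 1) ≠ 0 := by exact_mod_cast Nat.succ_ne_zero i
  have := congrArg (fun z => ((i : k) + 1)⁻¹ • z) h
  simpa [smul_smul, hi] using this

omit [CharZero k] in
lemma dx_mon (i j : ℕ) : K.dx (K.x ^ (i + 1) * K.y ^ j) = ((i : k) + 1) • (K.x ^ i * K.y ^ j) := by
  rw [Derivation.leibniz, Derivation.leibniz_pow, Derivation.leibniz_pow, K.dx_x, K.dx_y]
  simp only [smul_eq_mul, mul_zero, zero_add, nsmul_eq_mul, Nat.add_one_sub_one]
  rw [Algebra.smul_def, map_add, map_natCast, map_one]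
  push_cast
  ring

omit [CharZero k] in
lemma dx_mon_zero (j : ℕ) : K.dx (K.y ^ j) = 0 := by
  rw [Derivation.leibniz_pow, K.dx_y]; simp

omit [CharZero k] in
lemma J_mon (i j : ℕ) : K.invDx (((i : k) + 1) • (K.x ^ i * K.y ^ j)) = K.x ^ (i + 1) * K.y ^ j := by
  rw [map_smul, K.invDx_monomial]

lemma dx_J_all (f : F) : K.dx (K.invDx f) = f := by
  refine K.ind (p := fun f => K.dx (K.invDx f) = f) ?_ ?_ K.dx_invDx f
  · intro f g hf hg
    rw [map_add, map_add, hf, hg]
  · intro c i j
    rw [map_smul, Derivation.map_smul]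
    congr 1
    apply smul_inj (k := k) (i := i)
    rw [← Derivation.map_smul, K.invDx_monomial, dx_mon]

lemma dy_J_all (f : F) : K.dy (K.invDx f) = K.invDx (K.dy f) := by
  refine K.ind (p := fun f => K.dy (K.invDx f) = K.invDx (K.dy f)) ?_ ?_ ?_ f
  · intro f g hf hg
    rw [map_add, map_add, hf, hg, map_add, map_add]
  · intro c i j
    rw [map_smul, Derivation.map_smul, Derivation.map_smul, map_smul]
    congr 1
    apply smul_inj (k := k) (i := i)
    rw [← Derivation.map_smul, K.invDx_monomial]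
    have e : ∀ i : ℕ, K.dy (K.x ^ i * K.y ^ j) = (j : k) • (K.x ^ i * K.y ^ (j - 1)) := by
      intro i
      rw [Derivation.leibniz, Derivation.leibniz_pow, Derivation.leibniz_pow, K.dy_x, K.dy_y]
      simp only [smul_eq_mul, mul_zero, nsmul_eq_mul, add_zero]
      rw [Algebra.smul_def, map_natCast]
      ring
    rw [e, e, map_smul, smul_comm, K.invDx_monomial]
  · intro f hf
    have h1 := K.dy_mem _ (K.invDx_mem f hf)
    rw [← K.invDx_dx _ h1, K.comm, K.dx_invDx f hf]

/-- integration constant -/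
def Ec (f : F) : F := f - K.invDx (K.dx f)

omit [CharZero k] in
lemma Ec_add (f g : F) : K.Ec (f + g) = K.Ec f + K.Ec g := by
  unfold Ec; rw [map_add, map_add]; ring

omit [CharZero k] in
lemma Ec_smul (c : k) (f : F) : K.Ec (c • f) = c • K.Ec f := by
  unfold Ec; rw [Derivation.map_smul, map_smul, smul_sub]

omit [CharZero k] in
lemma Ec_D {f : F} (hf : f ∈ K.D) : K.Ec f = 0 := by
  unfold Ec; rw [K.invDx_dx f hf, sub_self]

omit [CharZero k] in
lemma Ec_mon_zero (j : ℕ) : K.Ec (K.y ^ j) = K.y ^ j := by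
  unfold Ec; rw [dx_mon_zero, map_zero, sub_zero]

omit [CharZero k] in
lemma Ec_mon_succ (i j : ℕ) : K.Ec (K.x ^ (i + 1) * K.y ^ j) = 0 := by
  unfold Ec; rw [dx_mon, J_mon, sub_self]

lemma Ec_mul (f g : F) : K.Ec (f * g) = K.Ec f * K.Ec g := by
  refine K.ind (p := fun f => K.Ec (f * g) = K.Ec f * K.Ec g) ?_ ?_ ?_ f
  · intro f f' hf hf'
    rw [add_mul, Ec_add, hf, hf', Ec_add, add_mul]
  · intro c i j
    rw [smul_mul_assoc, Ec_smul, Ec_smul, smul_mul_assoc]
    congr 1
    refine K.ind (p := fun g => K.Ec (K.x ^ i * K.y ^ j * g) = K.Ec (K.x ^ i * K.y ^ j) * K.Ec g)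
      ?_ ?_ ?_ g
    · intro g g' hg hg'
      rw [mul_add, Ec_add, hg, hg', Ec_add, mul_add]
    · intro c' i' j'
      rw [mul_smul_comm, Ec_smul, Ec_smul, mul_smul_comm]
      congr 1
      have e : K.x ^ i * K.y ^ j * (K.x ^ i' * K.y ^ j') = K.x ^ (i + i') * K.y ^ (j + j') := by
        rw [pow_add, pow_add]; ring
      rw [e]
      rcases i with _ | i
      · rcases i' with _ | i'
        · simp only [add_zero, pow_zero, one_mul, Ec_mon_zero]
          rw [pow_add]
        · rw [← add_assoc, Ec_mon_succ, Ec_mon_succ, mul_zero]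
      · have : i + 1 + i' = (i + i') + 1 := by omega
        rw [this, Ec_mon_succ, Ec_mon_succ, zero_mul]
    · intro g hg
      rw [Ec_D K hg, mul_zero, Ec_D K (K.D.mul_mem_left _ hg)]
  · intro f hf
    rw [Ec_D K hf, zero_mul, Ec_D K (K.D.mul_mem_right _ hf)]

/-- every calculus is a calculus in the general sense -/
def toICalc : ICalc k F where
  toOps := K.toOps
  comm := K.comm
  dx_x := K.dx_x
  dx_y := K.dx_y
  dy_x := K.dy_x
  dy_y := K.dy_y
  dx_J := K.dx_J_all
  dy_J := K.dy_J_all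
  E_mul := K.Ec_mul
  J_one := by
    have := K.invDx_monomial 0 0
    simpa using this

lemma inD_toICalc {u : F} (hu : u ∈ K.D) : K.toICalc.inD u := by
  intro i
  have h : K.toICalc.dx^[i] u ∈ K.D := by
    induction i with
    | zero => exact hu
    | succ i ih => rw [Function.iterate_succ_apply']; exact K.dx_mem _ ih
  exact Ec_D K h

end Calculus

theorem final (u : F) (hu : u ∈ K.D) (n : ℕ) :
    ((Expr.bracket^[n + 1]) (Expr.ypow n)).eval K.toOps u = 0 := by
  obtain ⟨l, κ, m, h⟩ := exists_lax K.toICalc (K.inD_toICalc hu)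
  have := main_ind (k := k) n (n + 1) le_rfl F K.toICalc u (K.inD_toICalc hu) l κ m h
  have e : K.toICalc.toOps = K.toOps := rfl
  rw [e] at this
  rw [this, Nat.descFactorial_eq_zero_iff_lt.2 (Nat.lt_succ_self n)]
  simp

end Pool.Agent.Lib.MP_0dcd56_mp
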