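import Pool.Agent.Lib.MP_0dcd56_mp.Lax

set_option autoImplicit false

open PowerSeries

namespace Pool.Agent.Lib.MP_0dcd56_mp

section basics
variable {A : Type*} [CommRing A]

lemma coeff_one_mul2 (φ ψ : A⟦X⟧) :
    coeff 1 (φ * ψ) = coeff 0 φ * coeff 1 ψ + coeff 1 φ * coeff 0 ψ := by
  rw [coeff_mul]
  have : Finset.HasAntidiagonal.antidiagonal 1 = {((0:ℕ), (1:ℕ)), (1, 0)} := rfl
  rw [this]
  simp

lemma coeff_two_mul2 (φ ψ : A⟦X⟧) :
    coeff 2 (φ * ψ) = coeff 0 φ * coeff 2 ψ + coeff 1 φ * coeff 1 ψ + coeff 2 φ * coeff 0 ψ := by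
  rw [coeff_mul]
  have : Finset.HasAntidiagonal.antidiagonal 2 = {((0:ℕ), (2:ℕ)), (1, 1), (2, 0)} := rfl
  rw [this]
  simp
  ring

lemma coeff_zero_mul2 (φ ψ : A⟦X⟧) : coeff 0 (φ * ψ) = coeff 0 φ * coeff 0 ψ := by
  simp

/-- first component -/
noncomputable def F1 (φ : (DualNumber A)⟦X⟧) : A⟦X⟧ := mk fun n => (coeff n φ).fst
/-- second component -/
noncomputable def F2 (φ : (DualNumber A)⟦X⟧) : A⟦X⟧ := mk fun n => (coeff n φ).snd

lemma coeff_F1 (φ : (DualNumber A)⟦X⟧) (n : ℕ) : coeff n (F1 φ) = (coeff n φ).fst := by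
  simp [F1]
lemma coeff_F2 (φ : (DualNumber A)⟦X⟧) (n : ℕ) : coeff n (F2 φ) = (coeff n φ).snd := by
  simp [F2]

lemma fst_sum' {ι : Type*} (s : Finset ι) (f : ι → DualNumber A) :
    (∑ i ∈ s, f i).fst = ∑ i ∈ s, (f i).fst := by
  classical
  induction s using Finset.induction_on with
  | empty => simp
  | insert a s ha ih => rw [Finset.sum_insert ha, Finset.sum_insert ha, TrivSqZeroExt.fst_add, ih]

lemma snd_sum' {ι : Type*} (s : Finset ι) (f : ι → DualNumber A) :
    (∑ i ∈ s, f i).snd = ∑ i ∈ s, (f i).snd := by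
  classical
  induction s using Finset.induction_on with
  | empty => simp
  | insert a s ha ih => rw [Finset.sum_insert ha, Finset.sum_insert ha, TrivSqZeroExt.snd_add, ih]

lemma F1_mul (φ ψ : (DualNumber A)⟦X⟧) : F1 (φ * ψ) = F1 φ * F1 ψ := by
  ext n
  rw [coeff_F1, coeff_mul, coeff_mul, fst_sum']
  apply Finset.sum_congr rfl
  intro p _
  rw [coeff_F1, coeff_F1, TrivSqZeroExt.fst_mul]

lemma F2_mul (φ ψ : (DualNumber A)⟦X⟧) : F2 (φ * ψ) = F1 φ * F2 ψ + F1 ψ * F2 φ := by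
  rw [mul_comm (F1 ψ)]
  ext n
  rw [coeff_F2, coeff_mul, map_add, coeff_mul, coeff_mul, snd_sum', ← Finset.sum_add_distrib]
  apply Finset.sum_congr rfl
  intro p _
  rw [coeff_F1, coeff_F1, coeff_F2, coeff_F2, snd_mul', mul_comm (coeff p.2 ψ).fst]

lemma F1_one : F1 (1 : (DualNumber A)⟦X⟧) = 1 := by
  ext n
  rw [coeff_F1, coeff_one, coeff_one]
  split_ifs <;> simp

lemma F2_one : F2 (1 : (DualNumber A)⟦X⟧) = 0 := by
  ext n
  rw [coeff_F2, coeff_one]
  split_ifs <;> simp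

lemma F1_pow (φ : (DualNumber A)⟦X⟧) (n : ℕ) : F1 (φ ^ n) = F1 φ ^ n := by
  induction n with
  | zero => simp [F1_one]
  | succ n ih => rw [pow_succ, pow_succ, F1_mul, ih]

end basics

variable {k A : Type*} [Field k] [CommRing A] [Algebra k A] {K : ICalc k A}

/-- positive coefficients in `D` -/
def Dser (K : ICalc k A) (φ : A⟦X⟧) : Prop := ∀ j, K.inD (coeff (j + 1) φ)

lemma inD_sum {ι : Type*} (s : Finset ι) (f : ι → A) (h : ∀ i ∈ s, K.inD (f i)) :
    K.inD (∑ i ∈ s, f i) := by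
  classical
  induction s using Finset.induction_on with
  | empty => simpa using ICalc.inD_zero
  | insert a s ha ih =>
    rw [Finset.sum_insert ha]
    exact (h a (Finset.mem_insert_self a s)).add
      (ih fun i hi => h i (Finset.mem_insert_of_mem hi))

lemma Dser.mul {φ ψ : A⟦X⟧} (h1 : Dser K φ) (h2 : Dser K ψ) : Dser K (φ * ψ) := by
  intro j
  rw [coeff_mul]
  apply inD_sum
  intro p hp
  have hp' := Finset.HasAntidiagonal.mem_antidiagonal.1 hp
  rcases Nat.eq_zero_or_pos p.1 with h | h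
  · have : p.2 = j + 1 := by omega
    rw [this]
    exact (h2 j).mul_left _
  · obtain ⟨i, hi⟩ := Nat.exists_eq_add_of_le' h
    rw [hi]
    exact (h1 i).mul_right _

lemma Dser.one : Dser K (1 : A⟦X⟧) := by
  intro j
  rw [coeff_one, if_neg (by omega)]
  exact ICalc.inD_zero

lemma Dser.pow {φ : A⟦X⟧} (h : Dser K φ) (n : ℕ) : Dser K (φ ^ n) := by
  induction n with
  | zero => rw [pow_zero]; exact Dser.one
  | succ n ih => rw [pow_succ]; exact ih.mul h

lemma St_X_mul {w : A} {d : ℤ} {φ : A⟦X⟧} (h : St K w d φ) : St K w (d + 2) (X * φ) := by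
  unfold St Star at *
  simp only [Derivation.leibniz, smul_eq_mul, cD_X, Th_X, mul_zero, add_zero]
  push_cast
  linear_combination X * h

section fstsnd
variable {w g : A} {d : ℤ} {φ : (DualNumber A)⟦X⟧}

lemma star_fst (h : St K.dual (du w g) d φ) : St K w d (F1 φ) := by
  rw [star_iff] at h ⊢
  obtain ⟨h0, h1⟩ := h
  constructor
  · have := congrArg TrivSqZeroExt.fst h0
    simp only [ICalc.dual, Ops.dual, TrivSqZeroExt.fst_mul, fst_dualDer,
      TrivSqZeroExt.fst_zero] at this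
    rw [coeff_F1]
    exact this
  · intro j
    have := congrArg TrivSqZeroExt.fst (h1 j)
    simp only [ICalc.dual, Ops.dual, TrivSqZeroExt.fst_mul, fst_dualDer, TrivSqZeroExt.fst_sub,
      TrivSqZeroExt.fst_add, fst_du, TrivSqZeroExt.fst_intCast, TrivSqZeroExt.fst_natCast] at this
    rw [coeff_F1, coeff_F1]
    exact this

lemma star_snd (h : St K.dual (du w g) d φ) (j : ℕ) :
    K.dy (coeff j (F2 φ)) = 3 * K.dx (coeff (j + 1) (F2 φ)) + 3 * K.dx w * K.dx (coeff j (F2 φ))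
        - 3 * K.dx (K.dx w) * ((d - 2 * j) * coeff j (F2 φ))
        + (3 * K.dx g * K.dx (coeff j (F1 φ))
          - 3 * K.dx (K.dx g) * ((d - 2 * j) * coeff j (F1 φ))) := by
  rw [star_iff] at h
  have := congrArg TrivSqZeroExt.snd (h.2 j)
  have e3 : ((3 : DualNumber A)).snd = 0 := rfl
  have e3' : ((3 : DualNumber A)).fst = 3 := rfl
  have e2 : ((2 : DualNumber A)).snd = 0 := rfl
  have e2' : ((2 : DualNumber A)).fst = 2 := rfl
  simp only [ICalc.dual, Ops.dual, TrivSqZeroExt.fst_mul, snd_mul', fst_dualDer, snd_dualDer,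
    TrivSqZeroExt.fst_sub, TrivSqZeroExt.snd_sub, TrivSqZeroExt.snd_add, fst_du, snd_du,
    TrivSqZeroExt.fst_intCast, TrivSqZeroExt.snd_intCast, TrivSqZeroExt.fst_natCast,
    TrivSqZeroExt.snd_natCast, e3, e3', e2, e2'] at this
  rw [coeff_F1, coeff_F2, coeff_F2]
  linear_combination this

end fstsnd

end Pool.Agent.Lib.MP_0dcd56_mp
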