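import Pool.Agent.Lib.MP_0dcd56_mp.Flow

set_option autoImplicit false

open PowerSeries

namespace Pool.Agent.Lib.MP_0dcd56_mp

variable {k A : Type*} [Field k] [CharZero k] [CommRing A] [Algebra k A] {K : ICalc k A}

/-- `x`-derivative of `V`. -/
def Vx (K : ICalc k A) (w : A) : A :=
  15 * K.dx (K.dx w) * K.dy w + 15 * K.dx w * K.dy (K.dx w) - 45 * K.dx w ^ 2 * K.dx (K.dx w)
      + 5 * K.dy (K.dy w)

omit [CharZero k] in
lemma dx_Vval (w : A) : K.dx (K.Vval w) = Vx K w := by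
  unfold Ops.Vval Vx
  simp only [map_add, map_sub, Derivation.leibniz, Derivation.leibniz_pow, smul_eq_mul, der_ofNat,
    K.dx_J, K.comm, nsmul_eq_mul, Nat.cast_ofNat, Nat.add_one_sub_one]
  ring

omit [CharZero k] in
lemma inD_Vval {w : A} (hw : K.inD w) : K.inD (K.Vval w) := by
  unfold Ops.Vval
  have h1 : K.dx w ^ 3 = K.dx w * K.dx w ^ 2 := by ring
  rw [h1]
  exact ((hw.dy.mul_left _).sub ((hw.dx.mul_right _).mul_left _)).add (hw.dy.dy.J.mul_left _)

omit [CharZero k] in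
/-- recursion for shifted coefficients -/
lemma shift_rec {w : A} {d : ℤ} {φ Y : A⟦X⟧}
    (hY : X * cD K.dy Y = (3 + 3 * cD K.dx (C w) * X) * cD K.dx Y
      - 3 * cD K.dx (cD K.dx (C w)) * X * (((d + 4 : ℤ) : A⟦X⟧) * Y - 2 * Th (k := k) Y)
      + X ^ 3 * (3 * C (Vx K w) * cD K.dx φ
        - 3 * cD K.dx (C (Vx K w)) * ((d : A⟦X⟧) * φ - 2 * Th (k := k) φ))) (j : ℕ) :
    K.dy (coeff (j + 2) Y) = 3 * K.dx (coeff (j + 2 + 1) Y) + 3 * K.dx w * K.dx (coeff (j + 2) Y)
        - 3 * K.dx (K.dx w) * ((d - 2 * j) * coeff (j + 2) Y)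
        + (3 * Vx K w * K.dx (coeff j φ)
          - 3 * K.dx (Vx K w) * ((d - 2 * j) * coeff j φ)) := by
  have h := congrArg (coeff (j + 2 + 1)) hY
  rw [map_add, rhs_coeff_succ, coeff_succ_X_mul, coeff_cD] at h
  have e : coeff (j + 2 + 1) (X ^ 3 * (3 * C (Vx K w) * cD K.dx φ
        - 3 * cD K.dx (C (Vx K w)) * ((d : A⟦X⟧) * φ - 2 * Th (k := k) φ)))
      = 3 * Vx K w * K.dx (coeff j φ) - 3 * K.dx (Vx K w) * ((d - 2 * j) * coeff j φ) := by
    have e1 : (X ^ 3 * (3 * C (Vx K w) * cD K.dx φ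
        - 3 * cD K.dx (C (Vx K w)) * ((d : A⟦X⟧) * φ - 2 * Th (k := k) φ)) : A⟦X⟧)
        = X * (X * (X * (C (3 * Vx K w) * cD K.dx φ
          - C (3 * K.dx (Vx K w)) * (C (d : A) * φ - C 2 * Th (k := k) φ)))) := by
      rw [cD_C]
      simp only [map_mul, map_ofNat, map_intCast]
      ring
    have e2 : j + 2 + 1 = ((j + 1) + 1) + 1 := rfl
    rw [e1, e2, coeff_succ_X_mul, coeff_succ_X_mul, coeff_succ_X_mul]
    simp only [map_sub, coeff_C_mul, coeff_cD, coeff_Th]
    ring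
  rw [e] at h
  push_cast at h
  linear_combination h

omit [CharZero k] in
/-- core identity in the series ring -/
lemma core_series {w : A} {d : ℤ} {φ : A⟦X⟧} (h : St K w d φ) :
    X * cD K.dy (CCs K w d φ) = (3 + 3 * cD K.dx (C w) * X) * cD K.dx (CCs K w d φ)
      - 3 * cD K.dx (cD K.dx (C w)) * X * (((d + 4 : ℤ) : A⟦X⟧) * CCs K w d φ
          - 2 * Th (k := k) (CCs K w d φ))
      + X ^ 3 * (3 * C (Vx K w) * cD K.dx φ
        - 3 * cD K.dx (C (Vx K w)) * ((d : A⟦X⟧) * φ - 2 * Th (k := k) φ)) := by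
  apply core_identity (comm' K) (cD_Th K.dx) (cD_Th K.dy) (cD_X _) (cD_X _) Th_X (Th_C w) h
  unfold Vx
  simp only [cD_C, map_add, map_sub, map_mul, map_pow, map_ofNat]

section lemmas
variable {w : A} {l κ m : A⟦X⟧}

omit [CharZero k] in
lemma Lax.Dl (h : Lax K w l κ m) : Dser K l := h.lD

omit [CharZero k] in
lemma Lax.l2 (hw : K.inD w) (h : Lax K w l κ m) :
    3 * coeff 2 l = K.dy w - 3 * K.dx w ^ 2 := by
  have hE1 : K.E (3 * coeff 2 l) = 0 := ((h.lD 1).mul_left 3).E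
  have hE2 : K.E (K.dy w - 3 * K.dx w ^ 2) = 0 := by
    have : K.inD (K.dy w - 3 * K.dx w ^ 2) := by
      rw [pow_two]
      exact hw.dy.sub ((hw.dx.mul_right _).mul_left _)
    exact this.E
  apply K.eq_of_dx hE1 hE2
  have h1 := ((star_iff K w 1 l).1 h.lS).2 1
  rw [h.l1] at h1
  simp only [map_sub, Derivation.leibniz, Derivation.leibniz_pow, smul_eq_mul, der_ofNat,
    nsmul_eq_mul, Nat.cast_ofNat, Nat.add_one_sub_one, pow_one, K.comm]
  push_cast at h1
  linear_combination -h1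

lemma Lax.m2 (hw : K.inD w) (h : Lax K w l κ m) :
    coeff 2 m = w + 2 * K.y * K.dy w - 3 * K.y * K.dx w ^ 2 := by
  have hE2 : K.inD (w + 2 * K.y * K.dy w - 3 * K.y * K.dx w ^ 2) := by
    rw [pow_two]
    exact (hw.add (hw.dy.mul_left _)).sub ((hw.dx.mul_right _).mul_left _)
  apply K.eq_of_dx (h.mD 0).E hE2.E
  apply three_mul_cancel k
  have h1 := ((star_iff K w 2 m).1 h.mS).2 1
  rw [h.m1] at h1
  simp only [map_sub, map_add, Derivation.leibniz, Derivation.leibniz_pow, smul_eq_mul, der_ofNat,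
    nsmul_eq_mul, Nat.cast_ofNat, Nat.add_one_sub_one, pow_one, K.comm, K.dx_x, K.dx_y, K.dy_x,
    K.dy_y] at h1 ⊢
  push_cast at h1
  linear_combination -h1

omit [CharZero k] in
lemma Lax.l4_0 (h : Lax K w l κ m) : coeff 0 (l ^ 4) = 1 := by
  have e : l ^ 4 = (l * l) * (l * l) := by ring
  rw [e, coeff_zero_mul2, coeff_zero_mul2, h.l0]
  ring

omit [CharZero k] in
lemma Lax.l4_1 (h : Lax K w l κ m) : coeff 1 (l ^ 4) = 4 * K.dx w := by
  have e : l ^ 4 = (l * l) * (l * l) := by ring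
  rw [e, coeff_one_mul2, coeff_one_mul2, coeff_zero_mul2, h.l0, h.l1]
  ring

omit [CharZero k] in
lemma Lax.l4_2 (h : Lax K w l κ m) : coeff 2 (l ^ 4) = 4 * coeff 2 l + 6 * K.dx w ^ 2 := by
  have e : l ^ 4 = (l * l) * (l * l) := by ring
  rw [e, coeff_two_mul2, coeff_two_mul2, coeff_one_mul2, coeff_zero_mul2, h.l0, h.l1]
  ring

/-- the flow on `ℓ` -/
lemma flow_l (hw : K.inD w) (h : Lax K w l κ m) {L κ' M : (DualNumber A)⟦X⟧}
    (H : Lax K.dual (du w (K.Vval w)) L κ' M) (hL : F1 L = l) :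
    X ^ 2 * F2 L = CCs K w 1 l := by
  have hl2 := h.l2 hw
  have hl2x := congrArg K.dx hl2
  have hl2y := congrArg K.dy hl2
  simp only [map_sub, Derivation.leibniz, Derivation.leibniz_pow, smul_eq_mul, der_ofNat,
    nsmul_eq_mul, Nat.cast_ofNat, Nat.add_one_sub_one, pow_one, K.comm, mul_zero, add_zero]
    at hl2x hl2y
  have key : ∀ j, coeff j (F2 L) = coeff (j + 2) (CCs K w 1 l) := by
    intro j
    refine unique_rec K (w := w) (d := 1) (s := fun j => 3 * Vx K w * K.dx (coeff j l)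
          - 3 * K.dx (Vx K w) * (((1 : ℤ) - 2 * j) * coeff j l)) (a := fun j => coeff j (F2 L))
      (b := fun j => coeff (j + 2) (CCs K w 1 l)) ?_ ?_ ?_ ?_ ?_ ?_ j
    · -- coefficient 0
      have e1 : coeff 0 (F2 L) = 0 := by
        rw [coeff_F2, H.l0]; simp
      simp only [zero_add]
      rw [e1]
      have e2 := CC_coeff K w 1 l 0
      simp only [zero_add, h.l0, h.l1, Derivation.map_one_eq_zero] at e2
      rw [e2, K.comm]
      push_cast
      linear_combination -15 * hl2x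
    · have e1 : coeff 1 (F2 L) = Vx K w := by
        rw [coeff_F2, H.l1, ← dx_Vval]
        simp [ICalc.dual, Ops.dual]
      rw [e1]
      have h2 := ((star_iff K w 1 l).1 h.lS).2 2
      have e2 := CC_coeff K w 1 l 1
      simp only [h.l1, Nat.reduceAdd] at e2 h2 ⊢
      rw [e2, K.comm]
      unfold Vx
      push_cast at h2 ⊢
      linear_combination 15 * h2 - 5 * hl2y - 30 * K.dx w * hl2x
    · intro j
      rw [coeff_F2]
      exact ((K.inD_dual).1 (H.lD (j + 1))).2
    · intro j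
      have e := CC_coeff K w 1 l (j + 2)
      rw [e]
      exact ((((h.lD (j + 3)).dx.mul_left _).add ((h.lD (j + 2)).dx.mul_left _)).sub
        (((h.lD (j + 2)).mul_left _).mul_left _)).add ((h.lD (j + 1)).dx.mul_left _) |>.sub
        (((h.lD (j + 1)).mul_left _).mul_left _)
    · intro j
      have := star_snd H.lS j
      rw [hL, dx_Vval] at this
      exact this
    · intro j
      exact shift_rec (core_series h.lS) j
  ext n
  rcases n with _ | _ | n
  · rw [CC_coeff_zero, h.l0]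
    have : (X ^ 2 * F2 L : A⟦X⟧) = X * (X * F2 L) := by ring
    rw [this, coeff_zero_X_mul]
    simp
  · have : (X ^ 2 * F2 L : A⟦X⟧) = X * (X * F2 L) := by ring
    rw [this, coeff_succ_X_mul, coeff_zero_X_mul, zero_add, CC_coeff_one, h.l0, h.l1]
    simp
  · have : (X ^ 2 * F2 L : A⟦X⟧) = X * (X * F2 L) := by ring
    rw [this, coeff_succ_X_mul, coeff_succ_X_mul]
    exact key n

/-- the flow on `m` -/
lemma flow_m (hw : K.inD w) (h : Lax K w l κ m) {L κ' M : (DualNumber A)⟦X⟧}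
    (H : Lax K.dual (du w (K.Vval w)) L κ' M) (hM : F1 M = m) :
    X ^ 2 * F2 M = CCs K w 2 m - 45 * (X * l ^ 4) := by
  have hl2 := h.l2 hw
  have hm2 := h.m2 hw
  have hm2x := congrArg K.dx hm2
  have hm2y := congrArg K.dy hm2
  simp only [map_sub, map_add, Derivation.leibniz, Derivation.leibniz_pow, smul_eq_mul, der_ofNat,
    nsmul_eq_mul, Nat.cast_ofNat, Nat.add_one_sub_one, pow_one, K.comm, mul_zero, add_zero,
    K.dx_y, K.dy_y] at hm2x hm2y
  set Y : A⟦X⟧ := CCs K w 2 m - 45 * (X * l ^ 4) with hYdef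
  have c45 : (45 : A⟦X⟧) = C 45 := (map_ofNat _ _).symm
  have cY : ∀ n, coeff (n + 1) Y = coeff (n + 1) (CCs K w 2 m) - 45 * coeff n (l ^ 4) := by
    intro n
    rw [hYdef, map_sub, c45, coeff_C_mul, coeff_succ_X_mul]
  have cY0 : coeff 0 Y = coeff 0 (CCs K w 2 m) := by
    rw [hYdef, map_sub, c45, coeff_C_mul, coeff_zero_X_mul, mul_zero, sub_zero]
  have hY : X * cD K.dy Y = (3 + 3 * cD K.dx (C w) * X) * cD K.dx Y
      - 3 * cD K.dx (cD K.dx (C w)) * X * (((2 + 4 : ℤ) : A⟦X⟧) * Y - 2 * Th (k := k) Y)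
      + X ^ 3 * (3 * C (Vx K w) * cD K.dx m
        - 3 * cD K.dx (C (Vx K w)) * (((2 : ℤ) : A⟦X⟧) * m - 2 * Th (k := k) m)) := by
    have h1 := core_series h.mS
    have h2 : St K w (4 * 1 + 2) (X * l ^ 4) := St_X_mul (h.lS.pow 4)
    unfold St Star at h2
    have e6 : ((4 * 1 + 2 : ℤ) : A⟦X⟧) = ((2 + 4 : ℤ) : A⟦X⟧) := by norm_num
    rw [e6] at h2
    rw [hYdef]
    simp only [map_sub, Derivation.leibniz, smul_eq_mul, der_ofNat, mul_zero, add_zero] at h2 ⊢
    linear_combination h1 - 45 * h2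
  have key : ∀ j, coeff j (F2 M) = coeff (j + 2) Y := by
    intro j
    refine unique_rec K (w := w) (d := 2) (s := fun j => 3 * Vx K w * K.dx (coeff j m)
          - 3 * K.dx (Vx K w) * (((2 : ℤ) - 2 * j) * coeff j m)) (a := fun j => coeff j (F2 M))
      (b := fun j => coeff (j + 2) Y) ?_ ?_ ?_ ?_ ?_ ?_ j
    · have e1 : coeff 0 (F2 M) = 0 := by
        rw [coeff_F2, H.m0, snd_mul']
        have e3 : ((3 : DualNumber A)).snd = 0 := rfl
        simp [e3, ICalc.dual, Ops.dual]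
      simp only [zero_add]
      rw [e1, cY 1]
      have e2 := CC_coeff K w 2 m 0
      simp only [zero_add, h.m0, h.m1, Derivation.leibniz, map_add, smul_eq_mul, der_ofNat,
        K.dx_x, K.dx_y, mul_zero, add_zero] at e2
      rw [e2, h.l4_1, K.comm]
      push_cast
      linear_combination -45 * hm2x
    · have e1 : coeff 1 (F2 M) = 6 * K.y * Vx K w := by
        rw [coeff_F2, H.m1, ← dx_Vval]
        have e6 : ((6 : DualNumber A)).snd = 0 := rfl
        have e6' : ((6 : DualNumber A)).fst = 6 := rfl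
        simp [ICalc.dual, Ops.dual, e6, e6']
      rw [e1]
      have h2 := ((star_iff K w 2 m).1 h.mS).2 2
      have e2 := CC_coeff K w 2 m 1
      have e3 := cY 2
      simp only [h.m1, Nat.reduceAdd, Derivation.leibniz, map_add, smul_eq_mul, der_ofNat,
        K.dx_x, K.dx_y, mul_zero, add_zero] at e2 e3 h2 ⊢
      rw [e3, e2, h.l4_2, K.comm]
      unfold Vx
      push_cast at h2 ⊢
      linear_combination 15 * h2 - 15 * hm2y - 90 * K.dx w * hm2x + 60 * hl2
    · intro j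
      rw [coeff_F2]
      exact ((K.inD_dual).1 (H.mD j)).2
    · intro j
      have e := CC_coeff K w 2 m (j + 2)
      have e' := cY (j + 3)
      rw [e', e]
      exact (((((h.mD (j + 2)).dx.mul_left _).add ((h.mD (j + 1)).dx.mul_left _)).sub
        (((h.mD (j + 1)).mul_left _).mul_left _)).add ((h.mD j).dx.mul_left _) |>.sub
        (((h.mD j).mul_left _).mul_left _)).sub ((h.Dl.pow 4 (j + 2)).mul_left _)
    · intro j
      have := star_snd H.mS j
      rw [hM, dx_Vval] at this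
      exact this
    · intro j
      exact shift_rec hY j
  ext n
  rcases n with _ | _ | n
  · rw [cY0, CC_coeff_zero, h.m0]
    have : (X ^ 2 * F2 M : A⟦X⟧) = X * (X * F2 M) := by ring
    rw [this, coeff_zero_X_mul]
    simp [der_ofNat, K.dx_y]
  · have : (X ^ 2 * F2 M : A⟦X⟧) = X * (X * F2 M) := by ring
    rw [this, coeff_succ_X_mul, coeff_zero_X_mul, cY 0, zero_add, CC_coeff_one, h.m0, h.m1, h.l4_0]
    simp only [Derivation.leibniz, map_add, smul_eq_mul, der_ofNat, K.dx_x, K.dx_y, mul_zero,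
      add_zero]
    push_cast
    ring
  · have : (X ^ 2 * F2 M : A⟦X⟧) = X * (X * F2 M) := by ring
    rw [this, coeff_succ_X_mul, coeff_succ_X_mul]
    exact key n

end lemmas

end Pool.Agent.Lib.MP_0dcd56_mp
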