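import Pool.Agent.Lib.MP_0dcd56_mp.Defs

set_option autoImplicit false

namespace Pool.Agent.Lib.MP_0dcd56_mp

variable {k A : Type*} [Field k] [CommRing A] [Algebra k A]

/-- The integration constant. -/
def Ops.E (O : Ops k A) (f : A) : A := f - O.invDx (O.dx f)

/-- More general calculus: the integration constant is multiplicative. -/
structure ICalc (k A : Type*) [Field k] [CommRing A] [Algebra k A] extends Ops k A where
  comm : ∀ f, dx (dy f) = dy (dx f)
  dx_x : dx x = 1
  dx_y : dx y = 0
  dy_x : dy x = 0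
  dy_y : dy y = 1
  dx_J : ∀ f, dx (invDx f) = f
  dy_J : ∀ f, dy (invDx f) = invDx (dy f)
  E_mul : ∀ f g, f * g - invDx (dx (f * g)) = (f - invDx (dx f)) * (g - invDx (dx g))
  J_one : invDx 1 = x

namespace ICalc

variable (K : ICalc k A)

lemma E_mul' (f g : A) : K.E (f * g) = K.E f * K.E g := K.E_mul f g

lemma E_add (f g : A) : K.E (f + g) = K.E f + K.E g := by
  unfold Ops.E; rw [map_add, map_add]; ring

lemma E_smul (c : k) (f : A) : K.E (c • f) = c • K.E f := by
  unfold Ops.E; rw [Derivation.map_smul, map_smul, smul_sub]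

lemma E_neg (f : A) : K.E (-f) = -K.E f := by
  unfold Ops.E; rw [map_neg, map_neg]; ring

lemma E_sub (f g : A) : K.E (f - g) = K.E f - K.E g := by
  unfold Ops.E; rw [map_sub, map_sub]; ring

lemma E_zero : K.E 0 = 0 := by unfold Ops.E; simp

lemma E_one : K.E 1 = 1 := by unfold Ops.E; simp

lemma E_x : K.E K.x = 0 := by unfold Ops.E; rw [K.dx_x, K.J_one, sub_self]

lemma E_y : K.E K.y = K.y := by unfold Ops.E; rw [K.dx_y, map_zero, sub_zero]

lemma E_J (f : A) : K.E (K.invDx f) = 0 := by unfold Ops.E; rw [K.dx_J, sub_self]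

lemma E_dy (f : A) : K.E (K.dy f) = K.dy (K.E f) := by
  unfold Ops.E; rw [map_sub, K.dy_J, K.comm]

lemma J_dx {f : A} (h : K.E f = 0) : K.invDx (K.dx f) = f := by
  unfold Ops.E at h; exact (sub_eq_zero.1 h).symm

/-- The integration constant as a ring homomorphism. -/
noncomputable def Ehom : A →+* A where
  toFun := K.E
  map_one' := K.E_one
  map_mul' := K.E_mul'
  map_zero' := K.E_zero
  map_add' := K.E_add

/-- `f` and all its `x`-derivatives have no integration constant. -/
def inD (f : A) : Prop := ∀ i : ℕ, K.E (K.dx^[i] f) = 0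

variable {K}

lemma inD.E {f : A} (h : K.inD f) : K.E f = 0 := h 0

lemma inD.J_dx {f : A} (h : K.inD f) : K.invDx (K.dx f) = f := K.J_dx h.E

lemma inD.dx {f : A} (h : K.inD f) : K.inD (K.dx f) := fun i => by
  have := h (i + 1)
  rwa [Function.iterate_succ_apply] at this

lemma inD.add {f g : A} (hf : K.inD f) (hg : K.inD g) : K.inD (f + g) := fun i => by
  have : K.dx^[i] (f + g) = K.dx^[i] f + K.dx^[i] g := by
    induction i with
    | zero => rfl
    | succ i ih => rw [Function.iterate_succ_apply', Function.iterate_succ_apply',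
        Function.iterate_succ_apply', ih, map_add]
  rw [this, K.E_add, hf i, hg i, add_zero]

lemma inD.smul {f : A} (hf : K.inD f) (c : k) : K.inD (c • f) := fun i => by
  have : K.dx^[i] (c • f) = c • K.dx^[i] f := by
    induction i with
    | zero => rfl
    | succ i ih => rw [Function.iterate_succ_apply', Function.iterate_succ_apply', ih,
        Derivation.map_smul]
  rw [this, K.E_smul, hf i, smul_zero]

lemma inD.neg {f : A} (hf : K.inD f) : K.inD (-f) := by
  have := hf.smul (-1)
  rwa [neg_one_smul] at this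

lemma inD.sub {f g : A} (hf : K.inD f) (hg : K.inD g) : K.inD (f - g) := by
  rw [sub_eq_add_neg]; exact hf.add hg.neg

lemma inD_zero : K.inD 0 := fun i => by
  have : K.dx^[i] (0 : A) = 0 := by
    induction i with
    | zero => rfl
    | succ i ih => rw [Function.iterate_succ_apply', ih, map_zero]
  rw [this, K.E_zero]

lemma inD.mul_right {f : A} (hf : K.inD f) (g : A) : K.inD (f * g) := by
  intro i
  induction i generalizing f g with
  | zero =>
    change K.E (f * g) = 0
    rw [K.E_mul', hf.E, zero_mul]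
  | succ i ih =>
    rw [Function.iterate_succ_apply, Derivation.leibniz, smul_eq_mul, smul_eq_mul]
    have : K.dx^[i] (f * K.dx g + g * K.dx f) = K.dx^[i] (f * K.dx g) + K.dx^[i] (K.dx f * g) := by
      rw [mul_comm g]
      clear ih
      induction i with
      | zero => rfl
      | succ i ih => rw [Function.iterate_succ_apply', Function.iterate_succ_apply',
          Function.iterate_succ_apply', ih, map_add]
    rw [this, K.E_add, ih hf, ih hf.dx, add_zero]

lemma inD.mul_left {f : A} (hf : K.inD f) (g : A) : K.inD (g * f) := by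
  rw [mul_comm]; exact hf.mul_right g

lemma inD.dy {f : A} (hf : K.inD f) : K.inD (K.dy f) := fun i => by
  have : K.dx^[i] (K.dy f) = K.dy (K.dx^[i] f) := by
    induction i with
    | zero => rfl
    | succ i ih => rw [Function.iterate_succ_apply', Function.iterate_succ_apply', ih, K.comm]
  rw [this, K.E_dy, hf i, map_zero]

lemma inD.J {f : A} (hf : K.inD f) : K.inD (K.invDx f) := fun i => by
  cases i with
  | zero => exact K.E_J f
  | succ i =>
    rw [Function.iterate_succ_apply, K.dx_J]
    exact hf i

/-- two elements of `D` with the same `x`-derivative agree -/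
lemma eq_of_dx {f g : A} (hf : K.E f = 0) (hg : K.E g = 0) (h : K.dx f = K.dx g) : f = g := by
  rw [← K.J_dx hf, ← K.J_dx hg, h]

end ICalc

/-- Values in `D`. -/
def Ops.Vval (O : Ops k A) (w : A) : A :=
  15 * O.dx w * O.dy w - 15 * O.dx w ^ 3 + 5 * O.invDx (O.dy (O.dy w))

def Ops.Vder (O : Ops k A) (w g : A) : A :=
  15 * (O.dx g * O.dy w + O.dx w * O.dy g) - 45 * O.dx w ^ 2 * O.dx g
    + 5 * O.invDx (O.dy (O.dy g))

lemma eval_V (O : Ops k A) (w : A) : Expr.V.eval O w = O.Vval w := by
  simp only [Expr.V, Expr.eval, Ops.Vval, Rat.cast_ofNat, Rat.cast_neg, map_ofNat, map_neg]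
  ring

lemma eval_V_gateaux (O : Ops k A) (w : A) (g : Expr) :
    (Expr.V.gateaux g).eval O w = O.Vder w (g.eval O w) := by
  simp only [Expr.V, Expr.gateaux, Expr.eval, Ops.Vder, Rat.cast_ofNat, Rat.cast_neg, map_ofNat,
    map_neg, Rat.cast_zero, map_zero]
  ring

lemma eval_bracket (O : Ops k A) (w : A) (f : Expr) :
    f.bracket.eval O w = O.Vder w (f.eval O w) - (f.gateaux Expr.V).eval O w := by
  simp only [Expr.bracket, Expr.eval, eval_V_gateaux, Rat.cast_neg, Rat.cast_one, map_neg, map_one]
  ring

lemma eval_ypow (O : Ops k A) (w : A) (n : ℕ) : (Expr.ypow n).eval O w = O.y ^ n := by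
  induction n with
  | zero => simp [Expr.ypow, Expr.eval]
  | succ n ih => simp only [Expr.ypow, Expr.eval, ih, pow_succ]

end Pool.Agent.Lib.MP_0dcd56_mp
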