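import Pool.Agent.Lib.MP_0dcd56_mp.Series

set_option autoImplicit false

open PowerSeries

namespace Pool.Agent.Lib.MP_0dcd56_mp

variable {k A : Type*} [Field k] [CharZero k] [CommRing A] [Algebra k A]

/-- Lax and Orlov function data. -/
structure Lax (K : ICalc k A) (w : A) (l κ m : A⟦X⟧) : Prop where
  inv : κ * l = 1
  l0 : coeff 0 l = 1
  l1 : coeff 1 l = K.dx w
  lD : ∀ j, K.inD (coeff (j + 1) l)
  lS : St K w 1 l
  m0 : coeff 0 m = 3 * K.y
  m1 : coeff 1 m = K.x + 6 * K.y * K.dx w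
  mD : ∀ j, K.inD (coeff (j + 2) m)
  mS : St K w 2 m

lemma three_mul_cancel (k : Type*) {A : Type*} [Field k] [CharZero k] [CommRing A] [Algebra k A]
    {a b : A} (h : 3 * a = 3 * b) : a = b := by
  have e : ∀ c : A, 3 * c = (3 : k) • c := by
    intro c
    rw [Algebra.smul_def, map_ofNat]
  rw [e, e] at h
  have h3 : (3 : k) ≠ 0 := by norm_num
  have := congrArg (fun z => (3 : k)⁻¹ • z) h
  simpa [smul_smul, h3] using this

section
variable (K : ICalc k A)

/-- one third -/
def third (a : A) : A := (3 : k)⁻¹ • a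

lemma three_third (a : A) : 3 * third (k := k) a = a := by
  have e : (3 : A) = algebraMap k A 3 := (map_ofNat _ _).symm
  unfold third
  rw [e, ← Algebra.smul_def, smul_smul]
  simp

/-- recursion for the coefficients -/
noncomputable def sq (w : A) (d : ℤ) (a0 : A) : ℕ → A
  | 0 => a0
  | j + 1 => K.invDx (third (k := k) (K.dy (sq w d a0 j) - 3 * K.dx w * K.dx (sq w d a0 j)
      + 3 * K.dx (K.dx w) * (((d : A) - 2 * j) * sq w d a0 j)))

lemma st_sq (w : A) (d : ℤ) {a0 : A} (h0 : K.dx a0 = 0) : St K w d (mk (sq K w d a0)) := by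
  rw [star_iff]
  constructor
  · rw [coeff_mk, sq, h0, mul_zero]
  · intro j
    rw [coeff_mk, coeff_mk]
    conv_rhs => rw [sq, K.dx_J, three_third]
    ring

omit [CharZero k] in
lemma inD_third {a : A} (h : K.inD a) : K.inD (third (k := k) a) := h.smul _

/-- Existence of Lax data. -/
lemma exists_lax {w : A} (hw : K.inD w) : ∃ l κ m : A⟦X⟧, Lax K w l κ m := by
  have hu := hw.dx
  have hux := hu.dx
  -- `ℓ`
  have l0 : sq K w 1 1 0 = 1 := rfl
  have l1 : sq K w 1 1 1 = K.dx w := by
    have e : sq K w 1 1 1 = K.invDx (third (k := k) (3 * K.dx (K.dx w))) := by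
      rw [sq, l0]
      congr 2
      simp
    rw [e]
    have e2 : third (k := k) (3 * K.dx (K.dx w)) = K.dx (K.dx w) :=
      three_mul_cancel k (by rw [three_third])
    rw [e2, hu.J_dx]
  have lD : ∀ j, K.inD (sq K w 1 1 (j + 1)) := by
    intro j
    induction j with
    | zero => rw [zero_add, l1]; exact hu
    | succ j ih =>
      rw [sq]
      apply ICalc.inD.J
      apply inD_third
      exact (ih.dy.sub (ih.dx.mul_left _)).add ((ih.mul_left _).mul_left _)
  -- `m`
  have m0 : sq K w 2 (3 * K.y) 0 = 3 * K.y := rfl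
  have d3y : K.dx (3 * K.y) = 0 := by simp [der_ofNat, K.dx_y]
  have d3y' : K.dy (3 * K.y) = 3 := by simp [der_ofNat, K.dy_y]
  have hyu : K.inD (6 * K.y * K.dx w) := hu.mul_left _
  have m1 : sq K w 2 (3 * K.y) 1 = K.x + 6 * K.y * K.dx w := by
    have e : sq K w 2 (3 * K.y) 1 = K.invDx (third (k := k) (3 * (1 + K.dx (6 * K.y * K.dx w)))) := by
      rw [sq, m0, d3y, d3y']
      congr 2
      simp only [Derivation.leibniz, smul_eq_mul, der_ofNat, K.dx_y]
      push_cast
      ring
    rw [e]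
    have e2 : third (k := k) (3 * (1 + K.dx (6 * K.y * K.dx w))) = 1 + K.dx (6 * K.y * K.dx w) :=
      three_mul_cancel k (by rw [three_third])
    rw [e2, map_add, K.J_one, hyu.J_dx]
  have mD : ∀ j, K.inD (sq K w 2 (3 * K.y) (j + 2)) := by
    intro j
    induction j with
    | zero =>
      rw [zero_add, sq, m1]
      apply ICalc.inD.J
      apply inD_third
      have e : K.dy (K.x + 6 * K.y * K.dx w) = 6 * K.dx w + 6 * K.y * K.dy (K.dx w) := by
        simp only [map_add, Derivation.leibniz, smul_eq_mul, der_ofNat, K.dy_x, K.dy_y]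
        ring
      rw [e]
      exact (((hu.mul_left _).add (hu.dy.mul_left _)).sub ((hu.mul_left _).mul_right _)).add
        ((hux.mul_left _).mul_right _)
    | succ j ih =>
      rw [sq]
      apply ICalc.inD.J
      apply inD_third
      exact (ih.dy.sub (ih.dx.mul_left _)).add ((ih.mul_left _).mul_left _)
  have hunit : constantCoeff (mk (sq K w 1 1)) = ((1 : Aˣ) : A) := by
    rw [← coeff_zero_eq_constantCoeff_apply, coeff_mk, l0, Units.val_one]
  refine ⟨mk (sq K w 1 1), invOfUnit (mk (sq K w 1 1)) 1, mk (sq K w 2 (3 * K.y)), ?_⟩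
  refine ⟨?_, ?_, ?_, ?_, ?_, ?_, ?_, ?_, ?_⟩
  · rw [mul_comm]; exact mul_invOfUnit _ _ hunit
  · rw [coeff_mk, l0]
  · rw [coeff_mk, l1]
  · intro j; rw [coeff_mk]; exact lD j
  · exact st_sq K w 1 (by simp)
  · rw [coeff_mk, m0]
  · rw [coeff_mk, m1]
  · intro j; rw [coeff_mk]; exact mD j
  · exact st_sq K w 2 d3y

/-- uniqueness for the linear recursion -/
lemma unique_rec {w : A} {d : ℤ} {a b s : ℕ → A}
    (h0 : a 0 = b 0) (h1 : a 1 = b 1)
    (ha : ∀ j, K.inD (a (j + 2))) (hb : ∀ j, K.inD (b (j + 2)))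
    (ra : ∀ j, K.dy (a j) = 3 * K.dx (a (j + 1)) + 3 * K.dx w * K.dx (a j)
        - 3 * K.dx (K.dx w) * ((d - 2 * j) * a j) + s j)
    (rb : ∀ j, K.dy (b j) = 3 * K.dx (b (j + 1)) + 3 * K.dx w * K.dx (b j)
        - 3 * K.dx (K.dx w) * ((d - 2 * j) * b j) + s j) (j : ℕ) : a j = b j := by
  have key : ∀ j, a j = b j ∧ a (j + 1) = b (j + 1) := by
    intro j
    induction j with
    | zero => exact ⟨h0, h1⟩
    | succ j ih =>
      refine ⟨ih.2, ?_⟩
      apply K.eq_of_dx (ha j).E (hb j).E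
      apply three_mul_cancel k
      have h2 := ra (j + 1)
      have h3 := rb (j + 1)
      rw [ih.2] at h2
      linear_combination h3 - h2
  exact (key j).1

variable {K}

lemma Lax.unique {w : A} {l κ m l' κ' m' : A⟦X⟧} (h : Lax K w l κ m) (h' : Lax K w l' κ' m') :
    l = l' ∧ κ = κ' ∧ m = m' := by
  have hl : l = l' := by
    ext j
    refine unique_rec K (w := w) (d := 1) (s := fun _ => 0) (a := fun j => coeff j l)
      (b := fun j => coeff j l') ?_ ?_ ?_ ?_ ?_ ?_ j
    · rw [h.l0, h'.l0]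
    · rw [h.l1, h'.l1]
    · exact fun j => h.lD (j + 1)
    · exact fun j => h'.lD (j + 1)
    · intro j
      have := ((star_iff K w 1 l).1 h.lS).2 j
      rw [add_zero]; exact this
    · intro j
      have := ((star_iff K w 1 l').1 h'.lS).2 j
      rw [add_zero]; exact this
  have hm : m = m' := by
    ext j
    refine unique_rec K (w := w) (d := 2) (s := fun _ => 0) (a := fun j => coeff j m)
      (b := fun j => coeff j m') ?_ ?_ ?_ ?_ ?_ ?_ j
    · rw [h.m0, h'.m0]
    · rw [h.m1, h'.m1]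
    · exact h.mD
    · exact h'.mD
    · intro j
      have := ((star_iff K w 2 m).1 h.mS).2 j
      rw [add_zero]; exact this
    · intro j
      have := ((star_iff K w 2 m').1 h'.mS).2 j
      rw [add_zero]; exact this
  refine ⟨hl, ?_, hm⟩
  have h1 := h.inv
  have h2 := h'.inv
  rw [← hl] at h2
  calc κ = κ * (κ' * l) := by rw [h2, mul_one]
    _ = κ' * (κ * l) := by ring
    _ = κ' := by rw [h1, mul_one]

end

end Pool.Agent.Lib.MP_0dcd56_mp
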