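import Pool.Agent.Lib.MP_0dcd56_mp.Flow2

set_option autoImplicit false

open PowerSeries

namespace Pool.Agent.Lib.MP_0dcd56_mp

section Pd
variable {k A : Type*} [Field k] [CommRing A] [Algebra k A]

/-- the flow relation for products -/
def Pd (K : ICalc k A) (w : A) (d : ℤ) (z : (DualNumber A)⟦X⟧) (ρ : A⟦X⟧) : Prop :=
  X ^ 2 * F2 z = CCs K w d (F1 z) - 45 * (X * ρ)

variable {K : ICalc k A} {w : A}

lemma Pd.mul {d e : ℤ} {z z' : (DualNumber A)⟦X⟧} {ρ ρ' : A⟦X⟧} (h : Pd K w d z ρ)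
    (h' : Pd K w e z' ρ') : Pd K w (d + e) (z * z') (F1 z * ρ' + F1 z' * ρ) := by
  unfold Pd at *
  rw [F1_mul, F2_mul, CCs, CC_mul]
  linear_combination F1 z' * h + F1 z * h'

lemma Pd.one : Pd K w 0 1 0 := by
  unfold Pd
  rw [F1_one, F2_one]
  unfold CCs CC
  simp

lemma Pd.pow {d : ℤ} {z : (DualNumber A)⟦X⟧} {ρ : A⟦X⟧} (h : Pd K w d z ρ) (n : ℕ) :
    Pd K w (n * d) (z ^ n) (n * F1 z ^ (n - 1) * ρ) := by
  induction n with
  | zero => simpa using Pd.one
  | succ n ih =>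
    have h2 := ih.mul h
    rw [pow_succ]
    have e : ((n + 1 : ℕ) : ℤ) * d = n * d + d := by push_cast; ring
    rw [e]
    convert h2 using 1
    rw [F1_pow]
    cases n with
    | zero => simp
    | succ n =>
      simp only [Nat.add_one_sub_one]
      push_cast
      ring

lemma Pd.inv {d : ℤ} {z z' : (DualNumber A)⟦X⟧} (h : Pd K w d z 0) (hz : z' * z = 1) :
    Pd K w (-d) z' 0 := by
  unfold Pd at *
  have h1 := congrArg F1 hz
  have h2 := congrArg F2 hz
  rw [F1_mul, F1_one] at h1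
  rw [F2_mul, F2_one] at h2
  have h3 := CC_mul (Dx := cD K.dx) (Dy := cD K.dy) (Th := Th (k := k)) (C w) X (-d) d (F1 z') (F1 z)
  rw [neg_add_cancel, h1] at h3
  have h4 : CC (cD K.dx) (cD K.dy) (Th (k := k)) (C w) X 0 (1 : A⟦X⟧) = 0 := by
    unfold CC; simp
  rw [h4] at h3
  have key : (X ^ 2 * F2 z' - (CCs K w (-d) (F1 z') - 45 * (X * 0))) * (F1 z' * F1 z) = 0 := by
    have e1 : CCs K w (-d) (F1 z') = CC (cD K.dx) (cD K.dy) (Th (k := k)) (C w) X (-d) (F1 z') :=
      rfl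
    have e2 : CCs K w d (F1 z) = CC (cD K.dx) (cD K.dy) (Th (k := k)) (C w) X d (F1 z) := rfl
    rw [e1]
    rw [e2] at h
    linear_combination (F1 z' * X ^ 2) * h2 - F1 z' ^ 2 * h + F1 z' * h3
  rw [h1, mul_one, sub_eq_zero] at key
  exact key

end Pd

variable {k A : Type*} [Field k] [CharZero k] [CommRing A] [Algebra k A] {K : ICalc k A}
  {w : A} {l κ m : A⟦X⟧}

/-- the generating series `λ^(4j-2n-1) M^(n-j)` -/
noncomputable def Ph {B : Type*} [CommRing B] (l κ m : B⟦X⟧) (n j : ℕ) : B⟦X⟧ :=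
  κ ^ (2 * n + 1) * l ^ (4 * j) * m ^ (n - j)

omit [CharZero k] in
lemma St_Ph (h : Lax K w l κ m) {n j : ℕ} (hj : j ≤ n) : St K w (2 * j - 1) (Ph l κ m n j) := by
  have h1 := (h.lS.inv h.inv).pow (2 * n + 1)
  have h2 := h.lS.pow (4 * j)
  have h3 := h.mS.pow (n - j)
  have h4 := (h1.mul h2).mul h3
  have e : (((2 * n + 1 : ℕ) : ℤ) * -1 + ((4 * j : ℕ) : ℤ) * 1 + ((n - j : ℕ) : ℤ) * 2)
      = 2 * j - 1 := by
    rw [Nat.cast_sub hj]; push_cast; ring
  rw [e] at h4
  exact h4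

lemma flow_Ph (hw : K.inD w) (h : Lax K w l κ m) {L κ' M : (DualNumber A)⟦X⟧}
    (H : Lax K.dual (du w (K.Vval w)) L κ' M) (hL : F1 L = l) (hκ : F1 κ' = κ) (hM : F1 M = m)
    {n j : ℕ} (hj : j ≤ n) :
    X ^ 2 * F2 (Ph L κ' M n j) = CCs K w (2 * j - 1) (Ph l κ m n j)
      - 45 * (X * (((n - j : ℕ) : A⟦X⟧) * Ph l κ m n (j + 1))) := by
  have p1 : Pd K w 1 L 0 := by
    unfold Pd; rw [hL, flow_l hw h H hL]; ring
  have p2 : Pd K w (-1) κ' 0 := p1.inv H.inv
  have p3 : Pd K w 2 M (l ^ 4) := by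
    unfold Pd; rw [hM, flow_m hw h H hM]
  have q := ((p2.pow (2 * n + 1)).mul (p1.pow (4 * j))).mul (p3.pow (n - j))
  have e : (((2 * n + 1 : ℕ) : ℤ) * -1 + ((4 * j : ℕ) : ℤ) * 1 + ((n - j : ℕ) : ℤ) * 2)
      = 2 * j - 1 := by
    rw [Nat.cast_sub hj]; push_cast; ring
  rw [e] at q
  unfold Pd at q
  have e1 : F1 (κ' ^ (2 * n + 1) * L ^ (4 * j) * M ^ (n - j)) = Ph l κ m n j := by
    rw [F1_mul, F1_mul, F1_pow, F1_pow, F1_pow, hL, hκ, hM, Ph]
  rw [e1] at q
  unfold Ph at q ⊢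
  rw [q]
  congr 1
  rw [F1_mul, F1_pow, F1_pow, F1_pow, hL, hκ, hM]
  have e2 : n - (j + 1) = n - j - 1 := by omega
  have e3 : 4 * (j + 1) = 4 * j + 4 := by ring
  rw [e2, e3, pow_add]
  ring

omit [CharZero k] in
/-- constants of integration of the generating series -/
lemma E_Ph (h : Lax K w l κ m) (hw : K.inD w) (n j i : ℕ) :
    K.E (coeff (i + 1) (Ph l κ m n j)) = 0 := by
  have hl : PowerSeries.map K.Ehom l = 1 := by
    ext i
    rw [coeff_map, coeff_one]
    cases i with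
    | zero => rw [h.l0]; simp
    | succ i => rw [if_neg (by omega)]; exact (h.lD i).E
  have hm : PowerSeries.map K.Ehom m = C (3 * K.y) := by
    ext i
    rw [coeff_map, coeff_C]
    rcases i with _ | _ | i
    · rw [h.m0, if_pos rfl, map_mul, map_ofNat]
      congr 1
      exact K.E_y
    · rw [h.m1, if_neg (by omega), map_add]
      have e1 : K.Ehom K.x = 0 := K.E_x
      have e2 : K.Ehom (6 * K.y * K.dx w) = 0 := (hw.dx.mul_left _).E
      rw [e1, e2, add_zero]
    · rw [if_neg (by omega)]; exact (h.mD i).E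
  have hκ : PowerSeries.map K.Ehom κ = 1 := by
    have := congrArg (PowerSeries.map K.Ehom) h.inv
    rwa [map_mul, hl, mul_one, map_one] at this
  have e : PowerSeries.map K.Ehom (Ph l κ m n j) = C ((3 * K.y) ^ (n - j)) := by
    unfold Ph
    rw [map_mul, map_mul, map_pow, map_pow, map_pow, hl, hm, hκ, one_pow, one_pow, one_mul,
      one_mul, map_pow]
  have := congrArg (coeff (i + 1)) e
  rw [coeff_map, coeff_C, if_neg (by omega)] at this
  exact this

omit [CharZero k] in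
/-- `V'` on `σ_j`. -/
lemma Vder_eq {d : ℤ} {φ : A⟦X⟧} (hw : K.inD w) {j : ℕ} (hd : d = 2 * j - 1) (h : St K w d φ)
    (hE : K.E (coeff (j + 1) φ) = 0) :
    K.Vder w (coeff j φ) = coeff (j + 2) (CCs K w d φ) := by
  rw [CC_coeff]
  have h1 := ((star_iff K w d φ).1 h).2 j
  have h2 := ((star_iff K w d φ).1 h).2 (j + 1)
  rw [hd] at h1 h2 ⊢
  push_cast at h1 h2 ⊢
  set a := coeff j φ
  set b := coeff (j + 1) φ
  set c := coeff (j + 2) φ
  have e1 : K.dy a = K.dx (3 * b + 3 * K.dx w * a) := by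
    simp only [map_add, Derivation.leibniz, smul_eq_mul, der_ofNat]
    linear_combination h1
  have e2 : K.invDx (K.dy (K.dy a)) = K.dy (3 * b + 3 * K.dx w * a) := by
    rw [← K.dy_J, e1, K.J_dx]
    rw [K.E_add, K.E_mul', hE, K.E_mul', K.E_mul', hw.dx.E]
    ring
  unfold Ops.Vder
  rw [e2]
  simp only [map_add, Derivation.leibniz, smul_eq_mul, der_ofNat] at e1 ⊢
  rw [K.comm]
  linear_combination (30 * K.dx w) * e1 + 15 * h2

/-- Main induction. -/
theorem main_ind (n : ℕ) : ∀ j : ℕ, j ≤ n + 1 → ∀ (A : Type*) [CommRing A] [Algebra k A]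
    (K : ICalc k A) (w : A), K.inD w → ∀ l κ m : A⟦X⟧, Lax K w l κ m →
    ((Expr.bracket^[j]) (Expr.ypow n)).eval K.toOps w
      = ((3 : k)⁻¹ ^ n * 45 ^ j * (n.descFactorial j : k)) • coeff j (Ph l κ m n j) := by
  intro j
  induction j with
  | zero =>
    intro _ A _ _ K w hw l κ m h
    rw [Function.iterate_zero, id, eval_ypow]
    have hκ0 : coeff 0 κ = 1 := by
      have := congrArg (coeff 0) h.inv
      rw [coeff_zero_mul2, h.l0, mul_one] at this
      rw [this]; simp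
    have e : coeff 0 (Ph l κ m n 0) = (3 * K.y) ^ n := by
      unfold Ph
      simp only [mul_zero, pow_zero, mul_one, Nat.sub_zero]
      rw [coeff_zero_eq_constantCoeff_apply, map_mul, map_pow, map_pow,
        ← coeff_zero_eq_constantCoeff_apply, ← coeff_zero_eq_constantCoeff_apply, hκ0, h.m0,
        one_pow, one_mul]
    rw [e, Nat.descFactorial_zero, pow_zero, mul_one, Nat.cast_one, mul_one, mul_pow,
      Algebra.smul_def, ← mul_assoc]
    have : algebraMap k A ((3 : k)⁻¹ ^ n) * 3 ^ n = 1 := by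
      have e3 : (3 : A) = algebraMap k A 3 := (map_ofNat _ _).symm
      rw [e3, ← map_pow, ← map_mul, ← mul_pow]
      simp
    rw [this, one_mul]
  | succ j ih =>
    intro hj A _ _ K w hw l κ m h
    have hjn : j ≤ n := by omega
    have hwV : K.dual.inD (du w (K.Vval w)) := by
      rw [ICalc.inD_dual, fst_du, snd_du]; exact ⟨hw, inD_Vval hw⟩
    obtain ⟨L, κ', M, H⟩ := exists_lax K.dual hwV
    have H1 : Lax K w (F1 L) (F1 κ') (F1 M) := by
      refine ⟨?_, ?_, ?_, ?_, star_fst H.lS, ?_, ?_, ?_, star_fst H.mS⟩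
      · rw [← F1_mul, H.inv, F1_one]
      · rw [coeff_F1, H.l0]; simp
      · rw [coeff_F1, H.l1]; simp [ICalc.dual, Ops.dual]
      · intro i; rw [coeff_F1]; exact ((K.inD_dual).1 (H.lD i)).1
      · rw [coeff_F1, H.m0]
        have e3' : ((3 : DualNumber A)).fst = 3 := rfl
        simp [ICalc.dual, Ops.dual, e3']
      · rw [coeff_F1, H.m1]
        have e3' : ((6 : DualNumber A)).fst = 6 := rfl
        simp [ICalc.dual, Ops.dual, e3']
      · intro i; rw [coeff_F1]; exact ((K.inD_dual).1 (H.mD i)).1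
    obtain ⟨hL, hκ, hM⟩ := H1.unique h
    have ih1 := ih (by omega) A K w hw l κ m h
    have ih2 := ih (by omega) (DualNumber A) K.dual _ hwV L κ' M H
    set T := (Expr.bracket^[j]) (Expr.ypow n) with hT
    set c : k := (3 : k)⁻¹ ^ n * 45 ^ j * (n.descFactorial j : k) with hc
    rw [Function.iterate_succ_apply', ← hT, eval_bracket, ih1]
    -- the derivative part
    have hV : K.Vval w = Expr.V.eval K.toOps w := (eval_V _ _).symm
    have e1 : (T.gateaux Expr.V).eval K.toOps w = c • coeff j (F2 (Ph L κ' M n j)) := by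
      have h1 := eval_dual K.toOps w Expr.V T
      rw [← hV] at h1
      have h2 : T.eval K.toOps.dual (du w (K.Vval w)) = c • coeff j (Ph L κ' M n j) := ih2
      rw [h2] at h1
      have h3 := congrArg TrivSqZeroExt.snd h1
      rw [snd_du, TrivSqZeroExt.snd_smul] at h3
      rw [coeff_F2, ← h3]
    have e2 : K.Vder w (c • coeff j (Ph l κ m n j)) = c • K.Vder w (coeff j (Ph l κ m n j)) := by
      unfold Ops.Vder
      simp only [Derivation.map_smul, map_smul, smul_add, smul_sub, mul_smul_comm, smul_mul_assoc]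
      simp only [Algebra.smul_def]
      ring
    have e3 : K.Vder w (coeff j (Ph l κ m n j))
        = coeff (j + 2) (CCs K w (2 * j - 1) (Ph l κ m n j)) :=
      Vder_eq hw rfl (St_Ph h hjn) (E_Ph h hw n j j)
    have e4 := congrArg (coeff (j + 2)) (flow_Ph hw h H hL hκ hM hjn)
    have e5 : (X ^ 2 * F2 (Ph L κ' M n j) : A⟦X⟧) = X * (X * F2 (Ph L κ' M n j)) := by ring
    have c45 : (45 : A⟦X⟧) = C 45 := (map_ofNat _ _).symm
    have cn : ((n - j : ℕ) : A⟦X⟧) = C ((n - j : ℕ) : A) := (map_natCast _ _).symm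
    have e6 : j + 2 = (j + 1) + 1 := rfl
    rw [e5, e6, coeff_succ_X_mul, coeff_succ_X_mul, map_sub, c45, coeff_C_mul, coeff_succ_X_mul,
      cn, coeff_C_mul] at e4
    rw [e1, e2, e3, e4, ← smul_sub]
    have e7 : coeff (j + 2) (CCs K w (2 * j - 1) (Ph l κ m n j))
        - (coeff (j + 1 + 1) (CCs K w (2 * j - 1) (Ph l κ m n j))
          - 45 * (((n - j : ℕ) : A) * coeff (j + 1) (Ph l κ m n (j + 1))))
        = (45 * ((n - j : ℕ) : k)) • coeff (j + 1) (Ph l κ m n (j + 1)) := by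
      rw [Algebra.smul_def, map_mul, map_ofNat, map_natCast]
      ring
    rw [e7, smul_smul, hc, Nat.descFactorial_succ]
    congr 1
    push_cast
    ring

end Pool.Agent.Lib.MP_0dcd56_mp
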