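import Pool.Agent.Lib.MP_0dcd56_mp.Series

/-!
A concrete nontrivial calculus: power series in `q = e^x` whose coefficients are polynomials in
`x`, `y`.  Here `D` consists of the series without constant term.
-/

set_option autoImplicit false

open PowerSeries

namespace Pool.Agent.Lib.MP_0dcd56_mp.Model

/-- polynomials in `x`, `y` -/
abbrev P2 := MvPolynomial (Fin 2) ℚ

/-- the solution of `(∂_x + n) g = x^a` (for `n = 0` the one vanishing at `x = 0`) -/
noncomputable def gs (n : ℕ) : ℕ → P2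
  | 0 => if n = 0 then MvPolynomial.X 0 else MvPolynomial.C (n : ℚ)⁻¹
  | a + 1 => if n = 0 then MvPolynomial.C ((a : ℚ) + 2)⁻¹ * MvPolynomial.X 0 ^ (a + 2)
      else MvPolynomial.C (n : ℚ)⁻¹ * (MvPolynomial.X 0 ^ (a + 1) - ((a : P2) + 1) * gs n a)

lemma gs_zero (a : ℕ) :
    gs 0 a = MvPolynomial.C ((a : ℚ) + 1)⁻¹ * MvPolynomial.X 0 ^ (a + 1) := by
  cases a with
  | zero => simp [gs]
  | succ a =>
    simp only [gs, if_true]
    push_cast
    congr 3
    ring

lemma gs_pos {n : ℕ} (hn : n ≠ 0) (a : ℕ) :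
    MvPolynomial.pderiv 0 (gs n a) + (n : P2) * gs n a = MvPolynomial.X 0 ^ a := by
  have hn' : (n : ℚ) ≠ 0 := by exact_mod_cast hn
  have hC : (n : P2) * MvPolynomial.C (n : ℚ)⁻¹ = 1 := by
    have : (n : P2) = MvPolynomial.C (n : ℚ) := by simp
    rw [this, ← MvPolynomial.C_mul, mul_inv_cancel₀ hn', MvPolynomial.C_1]
  induction a with
  | zero =>
    simp only [gs, if_neg hn, MvPolynomial.pderiv_C, pow_zero, zero_add]
    exact hC
  | succ a ih =>
    simp only [gs, if_neg hn, map_sub, MvPolynomial.pderiv_pow, MvPolynomial.pderiv_C, zero_mul,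
      zero_add, MvPolynomial.pderiv_X_self, MvPolynomial.pderiv_mul, Nat.add_one_sub_one, mul_one]
    have e1 : MvPolynomial.pderiv 0 ((a : P2) + 1) = 0 := by
      rw [map_add, Derivation.map_natCast, MvPolynomial.pderiv_one, add_zero]
    rw [e1, zero_mul, zero_add]
    push_cast
    linear_combination (MvPolynomial.X 0 ^ (a + 1) - ((a : P2) + 1) * gs n a) * hC
      - MvPolynomial.C (n : ℚ)⁻¹ * ((a : P2) + 1) * ih
      + ((a : P2) + 1) * gs n a * hC

/-- right inverse of `∂_x + n` on polynomials -/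
noncomputable def Jn (n : ℕ) : P2 →ₗ[ℚ] P2 :=
  (MvPolynomial.basisMonomials (Fin 2) ℚ).constr ℚ
    (fun s => gs n (s 0) * MvPolynomial.X 1 ^ (s 1))

lemma mon_eq (s : Fin 2 →₀ ℕ) : (MvPolynomial.monomial s (1 : ℚ))
    = MvPolynomial.X 0 ^ (s 0) * MvPolynomial.X 1 ^ (s 1) := by
  rw [MvPolynomial.monomial_eq, MvPolynomial.C_1, one_mul, Finsupp.prod_fintype _ _ (by simp),
    Fin.prod_univ_two]

lemma Jn_mon (n a b : ℕ) : Jn n (MvPolynomial.X 0 ^ a * MvPolynomial.X 1 ^ b)
    = gs n a * MvPolynomial.X 1 ^ b := by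
  set s : Fin 2 →₀ ℕ := Finsupp.single 0 a + Finsupp.single 1 b
  have h0 : s 0 = a := by simp [s]
  have h1 : s 1 = b := by simp [s]
  have := (MvPolynomial.basisMonomials (Fin 2) ℚ).constr_basis ℚ
    (fun s => gs n (s 0) * MvPolynomial.X 1 ^ (s 1)) s
  rw [MvPolynomial.coe_basisMonomials] at this
  simp only [mon_eq, h0, h1] at this
  exact this

lemma lin_ext {L M : P2 →ₗ[ℚ] P2} (h : ∀ a b : ℕ, L (MvPolynomial.X 0 ^ a * MvPolynomial.X 1 ^ b)
    = M (MvPolynomial.X 0 ^ a * MvPolynomial.X 1 ^ b)) : L = M := by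
  apply (MvPolynomial.basisMonomials (Fin 2) ℚ).ext
  intro s
  rw [MvPolynomial.coe_basisMonomials]
  simp only [mon_eq]
  exact h _ _

/-- `∂_x` on polynomials. -/
noncomputable def dX : Derivation ℚ P2 P2 := MvPolynomial.pderiv 0
/-- `∂_y` on polynomials. -/
noncomputable def dY : Derivation ℚ P2 P2 := MvPolynomial.pderiv 1

lemma right_inv {n : ℕ} (hn : n ≠ 0) (p : P2) : dX (Jn n p) + (n : P2) * Jn n p = p := by
  have : (dX.toLinearMap + (n : ℚ) • LinearMap.id) ∘ₗ Jn n = LinearMap.id := by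
    apply lin_ext
    intro a b
    simp only [LinearMap.comp_apply, LinearMap.add_apply, LinearMap.smul_apply, LinearMap.id_apply,
      Jn_mon, dX, Derivation.coeFn_coe]
    rw [MvPolynomial.pderiv_mul, MvPolynomial.pderiv_pow,
      MvPolynomial.pderiv_X_of_ne (by decide : (1 : Fin 2) ≠ 0), MvPolynomial.smul_eq_C_mul]
    have e : MvPolynomial.C (n : ℚ) = (n : P2) := by simp
    rw [e, ← gs_pos hn a]
    ring
  have h := congrArg (fun L => L p) this
  simp only [LinearMap.comp_apply, LinearMap.add_apply, LinearMap.smul_apply, LinearMap.id_apply,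
    Derivation.coeFn_coe] at h
  rw [MvPolynomial.smul_eq_C_mul] at h
  have e : MvPolynomial.C (n : ℚ) = (n : P2) := by simp
  rw [e] at h
  exact h

lemma left_inv {n : ℕ} (hn : n ≠ 0) (p : P2) : Jn n (dX p + (n : P2) * p) = p := by
  have hn' : (n : ℚ) ≠ 0 := by exact_mod_cast hn
  have hC : (n : P2) * MvPolynomial.C (n : ℚ)⁻¹ = 1 := by
    have : (n : P2) = MvPolynomial.C (n : ℚ) := by simp
    rw [this, ← MvPolynomial.C_mul, mul_inv_cancel₀ hn', MvPolynomial.C_1]
  have : Jn n ∘ₗ (dX.toLinearMap + (n : ℚ) • LinearMap.id) = LinearMap.id := by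
    apply lin_ext
    intro a b
    simp only [LinearMap.comp_apply, LinearMap.add_apply, LinearMap.smul_apply, LinearMap.id_apply,
      map_add, map_smul, Jn_mon, dX, Derivation.coeFn_coe]
    rw [MvPolynomial.pderiv_mul, MvPolynomial.pderiv_pow, MvPolynomial.pderiv_pow,
      MvPolynomial.pderiv_X_of_ne (by decide : (1 : Fin 2) ≠ 0), MvPolynomial.pderiv_X_self,
      mul_zero, mul_zero, add_zero, mul_one, MvPolynomial.smul_eq_C_mul]
    have e : MvPolynomial.C (n : ℚ) = (n : P2) := by simp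
    rw [e]
    cases a with
    | zero =>
      simp only [gs, if_neg hn, CharP.cast_eq_zero, zero_mul, map_zero, zero_add, pow_zero]
      linear_combination MvPolynomial.X 1 ^ b * hC
    | succ a =>
      have e2 : (((a + 1 : ℕ) : P2) * MvPolynomial.X 0 ^ (a + 1 - 1)) * MvPolynomial.X 1 ^ b
          = ((a + 1 : ℕ) : ℚ) • (MvPolynomial.X 0 ^ a * MvPolynomial.X 1 ^ b) := by
        rw [MvPolynomial.smul_eq_C_mul, Nat.add_one_sub_one]
        push_cast
        simp
        ring
      rw [e2, map_smul, Jn_mon, MvPolynomial.smul_eq_C_mul]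
      simp only [gs, if_neg hn]
      push_cast
      simp only [map_add, map_natCast, map_one]
      linear_combination (MvPolynomial.X 0 ^ (a + 1) - ((a : P2) + 1) * gs n a)
        * MvPolynomial.X 1 ^ b * hC
  have h := congrArg (fun L => L p) this
  simp only [LinearMap.comp_apply, LinearMap.add_apply, LinearMap.smul_apply, LinearMap.id_apply,
    Derivation.coeFn_coe] at h
  rw [MvPolynomial.smul_eq_C_mul] at h
  have e : MvPolynomial.C (n : ℚ) = (n : P2) := by simp
  rw [e] at h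
  exact h

lemma pcomm (p : P2) : dX (dY p) = dY (dX p) := by
  have : dX.toLinearMap ∘ₗ dY.toLinearMap = dY.toLinearMap ∘ₗ dX.toLinearMap := by
    apply lin_ext
    intro a b
    simp only [LinearMap.comp_apply, Derivation.coeFn_coe, dX, dY, MvPolynomial.pderiv_mul,
      MvPolynomial.pderiv_pow, MvPolynomial.pderiv_X_self,
      MvPolynomial.pderiv_X_of_ne (by decide : (1 : Fin 2) ≠ 0),
      MvPolynomial.pderiv_X_of_ne (by decide : (0 : Fin 2) ≠ 1), mul_zero, mul_one, zero_mul,
      add_zero, zero_add, Derivation.map_natCast]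
  exact congrArg (fun L => L p) this

/-- `∂_x⁻¹` on power series in `e^x`. -/
noncomputable def Jq : P2⟦X⟧ →ₗ[ℚ] P2⟦X⟧ where
  toFun φ := mk fun n => Jn n (coeff n φ)
  map_add' φ ψ := by ext1 n; simp
  map_smul' c φ := by
    ext1 n
    have h : ∀ (χ : P2⟦X⟧) (m : ℕ), coeff m (c • χ) = c • coeff m χ := fun χ m => rfl
    simp [h]

lemma coeff_Jq (n : ℕ) (φ : P2⟦X⟧) : coeff n (Jq φ) = Jn n (coeff n φ) := by simp [Jq]

/-- A nontrivial calculus. -/
noncomputable def model : Calculus ℚ P2⟦X⟧ where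
  dx := cD dX + Th
  dy := cD dY
  invDx := Jq
  x := C (MvPolynomial.X 0)
  y := C (MvPolynomial.X 1)
  comm f := by
    ext1 n
    simp only [Derivation.add_apply, map_add, coeff_cD, coeff_Th, pcomm, Derivation.leibniz,
      Derivation.map_natCast, smul_eq_mul, mul_zero, add_zero]
  dx_x := by
    rw [Derivation.add_apply, cD_C, Th_C, add_zero, dX, MvPolynomial.pderiv_X_self, map_one]
  dx_y := by
    rw [Derivation.add_apply, cD_C, Th_C, add_zero, dX,
      MvPolynomial.pderiv_X_of_ne (by decide : (1 : Fin 2) ≠ 0), map_zero]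
  dy_x := by
    rw [cD_C, dY, MvPolynomial.pderiv_X_of_ne (by decide : (0 : Fin 2) ≠ 1), map_zero]
  dy_y := by
    rw [cD_C, dY, MvPolynomial.pderiv_X_self, map_one]
  D := RingHom.ker (constantCoeff (R := P2))
  dx_mem f hf := by
    rw [RingHom.mem_ker, ← coeff_zero_eq_constantCoeff_apply] at hf ⊢
    rw [Derivation.add_apply, map_add, coeff_cD, coeff_Th, hf]
    simp
  dy_mem f hf := by
    rw [RingHom.mem_ker, ← coeff_zero_eq_constantCoeff_apply] at hf ⊢
    rw [coeff_cD, hf, map_zero]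
  invDx_mem f hf := by
    rw [RingHom.mem_ker, ← coeff_zero_eq_constantCoeff_apply] at hf ⊢
    rw [coeff_Jq, hf, map_zero]
  dx_invDx f hf := by
    rw [RingHom.mem_ker, ← coeff_zero_eq_constantCoeff_apply] at hf
    ext1 n
    rw [Derivation.add_apply, map_add, coeff_cD, coeff_Th, coeff_Jq]
    cases n with
    | zero => rw [hf]; simp
    | succ n => exact right_inv (Nat.succ_ne_zero n) _
  invDx_dx f hf := by
    rw [RingHom.mem_ker, ← coeff_zero_eq_constantCoeff_apply] at hf
    ext1 n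
    rw [coeff_Jq, Derivation.add_apply, map_add, coeff_cD, coeff_Th]
    cases n with
    | zero => rw [hf]; simp
    | succ n => exact left_inv (Nat.succ_ne_zero n) _
  invDx_monomial i j := by
    ext1 n
    rw [← map_pow, ← map_pow, ← map_pow, ← map_mul, ← map_mul, ← map_smul]
    rw [coeff_Jq]
    cases n with
    | zero =>
      have e : coeff 0 (((i : ℚ) + 1) • C (MvPolynomial.X 0 ^ i * MvPolynomial.X 1 ^ j : P2))
          = ((i : ℚ) + 1) • (MvPolynomial.X 0 ^ i * MvPolynomial.X 1 ^ j : P2) := by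
        have h : ∀ (c : ℚ) (χ : P2⟦X⟧), coeff 0 (c • χ) = c • coeff 0 χ := fun c χ => rfl
        rw [h, coeff_C, if_pos rfl]
      rw [e, map_smul, Jn_mon, gs_zero, coeff_C, if_pos rfl, MvPolynomial.smul_eq_C_mul,
        ← mul_assoc, ← mul_assoc, ← MvPolynomial.C_mul, mul_inv_cancel₀ (by positivity),
        MvPolynomial.C_1, one_mul]
    | succ n =>
      have h : ∀ (c : ℚ) (χ : P2⟦X⟧) (m : ℕ), coeff m (c • χ) = c • coeff m χ :=
        fun c χ m => rfl
      rw [h, coeff_C, coeff_C, if_neg (by omega), if_neg (by omega), smul_zero, map_zero]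
  poly_add_mem f := by
    refine ⟨coeff 0 f, ?_⟩
    rw [RingHom.mem_ker, map_sub, ← coeff_zero_eq_constantCoeff_apply]
    have e : MvPolynomial.aeval ![(C (MvPolynomial.X 0) : P2⟦X⟧), C (MvPolynomial.X 1)]
        (coeff 0 f) = C (coeff 0 f) := by
      have h : (MvPolynomial.aeval ![(C (MvPolynomial.X 0) : P2⟦X⟧), C (MvPolynomial.X 1)]
          : P2 →ₐ[ℚ] P2⟦X⟧) = (Algebra.algHom ℚ P2 P2⟦X⟧) := by
        apply MvPolynomial.algHom_ext
        intro i
        fin_cases i <;> simp <;> rfl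
      rw [h]
      rfl
    rw [e, constantCoeff_C, sub_self]

/-- `w = e^x` in this calculus: `V_[,] y = 15 w_x = 15 e^x ≠ 0`. -/
theorem model_nontrivial : (X : P2⟦X⟧) ∈ model.D ∧
    (Expr.bracket (Expr.ypow 1)).eval model.toOps (X : P2⟦X⟧) ≠ 0 := by
  constructor
  · change (X : P2⟦X⟧) ∈ RingHom.ker (constantCoeff (R := P2))
    rw [RingHom.mem_ker, constantCoeff_X]
  · rw [eval_bracket]
    have e0 : (Expr.ypow 1).eval model.toOps (X : P2⟦X⟧) = model.y := by
      rw [eval_ypow, pow_one]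
    have e1 : ((Expr.ypow 1).gateaux Expr.V).eval model.toOps (X : P2⟦X⟧) = 0 := by
      simp [Expr.ypow, Expr.gateaux, Expr.eval]
    have e2 : model.dx (X : P2⟦X⟧) = X := by
      change (cD dX + Th : Derivation ℚ P2⟦X⟧ P2⟦X⟧) (X : P2⟦X⟧) = X
      rw [Derivation.add_apply, cD_X, Th_X, zero_add]
    rw [e0, e1, sub_zero]
    unfold Ops.Vder
    rw [model.dx_y, model.dy_y, e2, Derivation.map_one_eq_zero, map_zero]
    have e3 : (15 * (0 * model.dy X + X * 1) - 45 * (X : P2⟦X⟧) ^ 2 * 0 + 5 * 0 : P2⟦X⟧)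
        = C 15 * X := by
      rw [map_ofNat]; ring
    rw [e3]
    intro h
    have := congrArg (coeff 1) h
    rw [coeff_C_mul, coeff_one_X, mul_one, map_zero] at this
    norm_num at this

end Pool.Agent.Lib.MP_0dcd56_mp.Model
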