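import Pool.Agent.Lib.MP_0dcd56_mp.Core

set_option autoImplicit false

open PowerSeries

namespace Pool.Agent.Lib.MP_0dcd56_mp

section
variable {k A : Type*} [Field k] [CommRing A] [Algebra k A]

/-- coefficientwise linear map -/
noncomputable def cLin (L : A →ₗ[k] A) : A⟦X⟧ →ₗ[k] A⟦X⟧ where
  toFun φ := mk fun n => L (coeff n φ)
  map_add' φ ψ := by ext n; simp
  map_smul' c φ := by
    ext n
    have h : ∀ (χ : A⟦X⟧) (m : ℕ), coeff m (c • χ) = c • coeff m χ := fun χ m => rfl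
    simp [h]

/-- coefficientwise derivation -/
noncomputable def cD (D : Derivation k A A) : Derivation k A⟦X⟧ A⟦X⟧ :=
  Derivation.mk' (cLin D.toLinearMap) (by
    intro φ ψ
    rw [smul_eq_mul, smul_eq_mul, mul_comm ψ]
    ext n
    simp only [cLin, LinearMap.coe_mk, AddHom.coe_mk, coeff_mk, coeff_mul, smul_eq_mul, map_add,
      Derivation.coeFn_coe, map_sum, Derivation.leibniz]
    rw [← Finset.sum_add_distrib]
    apply Finset.sum_congr rfl
    intro p _
    ring)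

@[simp] lemma coeff_cD (D : Derivation k A A) (n : ℕ) (φ : A⟦X⟧) :
    coeff n (cD D φ) = D (coeff n φ) := by
  simp [cD, cLin]

/-- `q d/dq` -/
noncomputable def Th : Derivation k A⟦X⟧ A⟦X⟧ :=
  Derivation.mk' ({ toFun := fun φ => mk fun n => (n : A) * coeff n φ
                    map_add' := fun φ ψ => by ext n; simp [mul_add]
                    map_smul' := fun c φ => by
                      ext n
                      have h : ∀ (χ : A⟦X⟧) (m : ℕ), coeff m (c • χ) = c • coeff m χ :=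
                        fun χ m => rfl
                      simp [h] } : A⟦X⟧ →ₗ[k] A⟦X⟧) (by
    intro φ ψ
    rw [smul_eq_mul, smul_eq_mul, mul_comm ψ]
    ext n
    simp only [LinearMap.coe_mk, AddHom.coe_mk, coeff_mk, coeff_mul, map_add]
    rw [← Finset.sum_add_distrib, Finset.mul_sum]
    apply Finset.sum_congr rfl
    intro p hp
    have : (n : A) = p.1 + p.2 := by
      rw [← Finset.HasAntidiagonal.mem_antidiagonal.1 hp]; push_cast; ring
    rw [this]
    ring)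

lemma coeff_Th (n : ℕ) (φ : A⟦X⟧) : coeff n (Th (k := k) φ) = n * coeff n φ := by
  simp [Th]

lemma cD_C (D : Derivation k A A) (a : A) : cD D (C a) = C (D a) := by
  ext n
  rw [coeff_cD, coeff_C, coeff_C]
  split_ifs <;> simp

lemma cD_X (D : Derivation k A A) : cD D X = 0 := by
  ext n
  rw [coeff_cD, coeff_X]
  split_ifs <;> simp

lemma Th_C (a : A) : Th (k := k) (C a) = 0 := by
  ext n
  rw [coeff_Th, coeff_C]
  split_ifs with h
  · simp [h]
  · simp

lemma Th_X : Th (k := k) (X : A⟦X⟧) = X := by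
  ext n
  rw [coeff_Th, coeff_X]
  split_ifs with h
  · simp [h]
  · simp

lemma cD_Th (D : Derivation k A A) (φ : A⟦X⟧) : cD D (Th (k := k) φ) = Th (k := k) (cD D φ) := by
  ext n
  rw [coeff_cD, coeff_Th, coeff_Th, coeff_cD, Derivation.leibniz]
  simp

end

section
variable {k A : Type*} [Field k] [CommRing A] [Algebra k A] (K : ICalc k A)

/-- The `y`-flow in degree `d`. -/
abbrev St (w : A) (d : ℤ) (φ : A⟦X⟧) : Prop := Star (cD K.dx) (cD K.dy) (Th (k := k)) (C w) X d φ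

/-- `{9 B₅, ·}` -/
noncomputable abbrev CCs (w : A) (d : ℤ) (φ : A⟦X⟧) : A⟦X⟧ :=
  CC (cD K.dx) (cD K.dy) (Th (k := k)) (C w) X d φ

lemma comm' (φ : A⟦X⟧) : cD K.dx (cD K.dy φ) = cD K.dy (cD K.dx φ) := by
  ext n; simp [K.comm]

/-- right-hand side of the flow, coefficients -/
lemma rhs_coeff_zero (w : A) (d : ℤ) (φ : A⟦X⟧) :
    coeff 0 ((3 + 3 * cD K.dx (C w) * X) * cD K.dx φ
      - 3 * cD K.dx (cD K.dx (C w)) * X * ((d : A⟦X⟧) * φ - 2 * Th (k := k) φ)) = 3 * K.dx (coeff 0 φ) := by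
  have e : (3 + 3 * cD K.dx (C w) * X) * cD K.dx φ
      - 3 * cD K.dx (cD K.dx (C w)) * X * ((d : A⟦X⟧) * φ - 2 * Th (k := k) φ)
      = C 3 * cD K.dx φ + X * (C (3 * K.dx w) * cD K.dx φ
        - C (3 * K.dx (K.dx w)) * (C (d : A) * φ - C 2 * Th (k := k) φ)) := by
    rw [cD_C, cD_C]
    simp only [map_mul, map_ofNat, map_intCast]
    ring
  rw [e, map_add, coeff_zero_X_mul, coeff_C_mul, coeff_cD, add_zero]

lemma rhs_coeff_succ (w : A) (d : ℤ) (φ : A⟦X⟧) (j : ℕ) :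
    coeff (j + 1) ((3 + 3 * cD K.dx (C w) * X) * cD K.dx φ
      - 3 * cD K.dx (cD K.dx (C w)) * X * ((d : A⟦X⟧) * φ - 2 * Th (k := k) φ))
      = 3 * K.dx (coeff (j + 1) φ) + 3 * K.dx w * K.dx (coeff j φ)
        - 3 * K.dx (K.dx w) * ((d - 2 * j) * coeff j φ) := by
  have e : (3 + 3 * cD K.dx (C w) * X) * cD K.dx φ
      - 3 * cD K.dx (cD K.dx (C w)) * X * ((d : A⟦X⟧) * φ - 2 * Th (k := k) φ)
      = C 3 * cD K.dx φ + X * (C (3 * K.dx w) * cD K.dx φ
        - C (3 * K.dx (K.dx w)) * (C (d : A) * φ - C 2 * Th (k := k) φ)) := by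
    rw [cD_C, cD_C]
    simp only [map_mul, map_ofNat, map_intCast]
    ring
  rw [e, map_add, coeff_succ_X_mul, map_sub, coeff_C_mul, coeff_C_mul, coeff_C_mul, map_sub,
    coeff_C_mul, coeff_C_mul, coeff_cD, coeff_cD, coeff_Th]
  ring

lemma star_iff (w : A) (d : ℤ) (φ : A⟦X⟧) : St K w d φ ↔ 3 * K.dx (coeff 0 φ) = 0 ∧
    ∀ j : ℕ, K.dy (coeff j φ) = 3 * K.dx (coeff (j + 1) φ) + 3 * K.dx w * K.dx (coeff j φ)
        - 3 * K.dx (K.dx w) * ((d - 2 * j) * coeff j φ) := by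
  unfold St Star
  rw [PowerSeries.ext_iff]
  constructor
  · intro h
    constructor
    · have := h 0
      rw [rhs_coeff_zero, coeff_zero_X_mul] at this
      exact this.symm
    · intro j
      have := h (j + 1)
      rw [rhs_coeff_succ, coeff_succ_X_mul, coeff_cD] at this
      exact this
  · rintro ⟨h0, h1⟩ n
    cases n with
    | zero => rw [rhs_coeff_zero, coeff_zero_X_mul, h0]
    | succ j => rw [rhs_coeff_succ, coeff_succ_X_mul, coeff_cD]; exact h1 j

lemma CC_eq (w : A) (d : ℤ) (φ : A⟦X⟧) : CCs K w d φ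
    = C 45 * cD K.dx φ + X * (C (135 * K.dx w) * cD K.dx φ
        - C (45 * K.dx (K.dx w)) * (C (d : A) * φ - C 2 * Th (k := k) φ)
      + X * (C (15 * K.dy w + 45 * K.dx w ^ 2) * cD K.dx φ
        - C (15 * K.dx (K.dy w) + 90 * K.dx w * K.dx (K.dx w))
            * (C (d : A) * φ - C 2 * Th (k := k) φ))) := by
  unfold CCs CC
  rw [cD_C, cD_C, cD_C, cD_C]
  simp only [map_mul, map_ofNat, map_intCast, map_add, map_pow]
  ring

lemma CC_coeff_zero (w : A) (d : ℤ) (φ : A⟦X⟧) :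
    coeff 0 (CCs K w d φ) = 45 * K.dx (coeff 0 φ) := by
  rw [CC_eq, map_add, coeff_zero_X_mul, coeff_C_mul, coeff_cD, add_zero]

lemma coeff_one_X_mul' (ψ : A⟦X⟧) : coeff 1 (X * ψ) = coeff 0 ψ := coeff_succ_X_mul 0 ψ

lemma CC_coeff_one (w : A) (d : ℤ) (φ : A⟦X⟧) :
    coeff 1 (CCs K w d φ) = 45 * K.dx (coeff 1 φ) + 135 * K.dx w * K.dx (coeff 0 φ)
      - 45 * K.dx (K.dx w) * (d * coeff 0 φ) := by
  rw [CC_eq, map_add, coeff_one_X_mul', map_add, coeff_zero_X_mul, map_sub, coeff_C_mul,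
    coeff_C_mul, coeff_C_mul, map_sub, coeff_C_mul, coeff_C_mul, coeff_cD, coeff_cD, coeff_Th]
  push_cast
  ring

lemma CC_coeff (w : A) (d : ℤ) (φ : A⟦X⟧) (j : ℕ) :
    coeff (j + 2) (CCs K w d φ) = 45 * K.dx (coeff (j + 2) φ)
      + 135 * K.dx w * K.dx (coeff (j + 1) φ)
      - 45 * K.dx (K.dx w) * ((d - 2 * (j + 1)) * coeff (j + 1) φ)
      + (15 * K.dy w + 45 * K.dx w ^ 2) * K.dx (coeff j φ)
      - (15 * K.dx (K.dy w) + 90 * K.dx w * K.dx (K.dx w)) * ((d - 2 * j) * coeff j φ) := by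
  have : j + 2 = (j + 1) + 1 := rfl
  rw [CC_eq, map_add, this, coeff_succ_X_mul, map_add, coeff_succ_X_mul]
  simp only [map_sub, coeff_C_mul, coeff_cD, coeff_Th]
  push_cast
  ring

end

end Pool.Agent.Lib.MP_0dcd56_mp
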